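import Mathlib
import Pool.Agent.H925R3.DD.Stubs

/-! Covers of `E^r`, `E` an elliptic curve over `ℚ` of rank at most one: statements of the modules. -/

namespace Pool.Agent.H925R3.RR

open Finset Pool.Agent.H925R3.DC Pool.Agent.H925R3.DD

/-- the `x`-coordinate (`0` for the point at infinity) -/
def xc {K : Type} [Field K] {a b : K} : (crv K a b).Point → K
  | .zero => 0
  | .some x _ _ => x

/-- height of a rational number -/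
noncomputable def ht (q : ℚ) : ℝ := Real.log (max (|q.num| : ℤ) (q.den : ℤ) : ℤ)

open Classical in
/-- height of a rational point -/
noncomputable def htp {a b : ℚ} (P : (crv ℚ a b).Point) : ℝ := if P = 0 then 0 else ht (xc P)

/-- FSP: sum and product of the `x`-coordinates of `P + Q` and `P - Q` -/
def FSP : Prop := ∀ (K : Type) [Field K] [DecidableEq K] (a b : K) (P Q : (crv K a b).Point),
  P ≠ 0 → Q ≠ 0 → xc P ≠ xc Q → P + Q ≠ 0 ∧ P - Q ≠ 0 ∧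
    (xc (P + Q) + xc (P - Q)) * (xc P - xc Q) ^ 2 =
      2 * (xc P + xc Q) * (xc P * xc Q + a) + 4 * b ∧
    xc (P + Q) * xc (P - Q) * (xc P - xc Q) ^ 2 =
      (xc P * xc Q - a) ^ 2 - 4 * b * (xc P + xc Q)

/-- FDB: duplication -/
def FDB : Prop := ∀ (K : Type) [Field K] [DecidableEq K] (a b : K) (P : (crv K a b).Point),
  P ≠ 0 → P + P ≠ 0 → xc P ^ 3 + a * xc P + b ≠ 0 ∧
    xc (P + P) * (4 * (xc P ^ 3 + a * xc P + b)) =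
      xc P ^ 4 - 2 * a * xc P ^ 2 - 8 * b * xc P + a ^ 2

/-- FEQ: points with the same `x`-coordinate -/
def FEQ : Prop := ∀ (K : Type) [Field K] [DecidableEq K] (a b : K) (P Q : (crv K a b).Point),
  xc (-P) = xc P ∧ (P ≠ 0 → Q ≠ 0 → xc P = xc Q → P = Q ∨ P = -Q) ∧
    (P ≠ 0 → ∃ y : K, y ^ 2 = xc P ^ 3 + a * xc P + b)

/-- HUP: upper bound for the heights of `P + Q` and `P - Q` -/
def HUP : Prop := FSP → FDB → FEQ → ∀ a b : ℤ, 4 * a ^ 3 + 27 * b ^ 2 ≠ 0 →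
  ∃ C : ℝ, ∀ P Q : (crv ℚ (a : ℚ) (b : ℚ)).Point, htp (P + Q) + htp (P - Q) ≤
    2 * htp P + 2 * htp Q + C

/-- HDB: lower bound for the height of `2P` -/
def HDB : Prop := FDB → FEQ → ∀ a b : ℤ, 4 * a ^ 3 + 27 * b ^ 2 ≠ 0 →
  ∃ C : ℝ, ∀ P : (crv ℚ (a : ℚ) (b : ℚ)).Point, 4 * htp P ≤ htp (P + P) + C

/-- HCAN: heights of the multiples of a point of infinite order -/
def HCAN : Prop := ∀ a b : ℤ,
  (∃ C : ℝ, ∀ P Q : (crv ℚ (a : ℚ) (b : ℚ)).Point, htp (P + Q) + htp (P - Q) ≤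
    2 * htp P + 2 * htp Q + C) →
  (∃ C : ℝ, ∀ P : (crv ℚ (a : ℚ) (b : ℚ)).Point, 4 * htp P ≤ htp (P + P) + C) → FEQ →
  ∀ P : (crv ℚ (a : ℚ) (b : ℚ)).Point, (∀ n : ℕ, 0 < n → n • P ≠ 0) →
  ∃ h C : ℝ, 0 < h ∧ ∀ n : ℕ, 1 ≤ n → |ht (xc (n • P)) - h * (n : ℝ) ^ 2| ≤ C

/-- PSUB: `p`-adic closeness to the point at infinity is additive -/
def PSUB : Prop := FSP → FDB → FEQ → ∀ (a b : ℤ) (p : ℕ), p.Prime →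
  ∀ P Q : (crv ℚ (a : ℚ) (b : ℚ)).Point, P ≠ 0 → Q ≠ 0 → P ≠ Q →
  min (padicValNat p (xc P).den) (padicValNat p (xc Q).den) ≤ padicValNat p (xc (P - Q)).den

/-- ASUB: the same for the real place -/
def ASUB : Prop := FSP → FDB → FEQ → ∀ a b : ℤ, ∃ K : ℝ, 1 ≤ K ∧
  ∀ P Q : (crv ℚ (a : ℚ) (b : ℚ)).Point, P ≠ 0 → Q ≠ 0 → P ≠ Q →
  min |((xc P : ℚ) : ℝ)| |((xc Q : ℚ) : ℝ)| ≤ K * max 1 |((xc (P - Q) : ℚ) : ℝ)|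

/-- PDB: `p`-adic closeness of `2P`, `p ≠ 2` -/
def PDB : Prop := FDB → ∀ (a b : ℤ) (p : ℕ), p.Prime → p ≠ 2 →
  ∀ P : (crv ℚ (a : ℚ) (b : ℚ)).Point, P ≠ 0 → P + P ≠ 0 → p ∣ (xc P).den →
  padicValNat p (xc (P + P)).den = padicValNat p (xc P).den

/-- PTR: `p`-adic closeness of `3P`, `p ≠ 2, 3` -/
def PTR : Prop := FSP → FDB → FEQ → ∀ (a b : ℤ) (p : ℕ), p.Prime → p ≠ 2 → p ≠ 3 →
  ∀ P : (crv ℚ (a : ℚ) (b : ℚ)).Point, P ≠ 0 → P + P ≠ 0 → P + P + P ≠ 0 → p ∣ (xc P).den →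
  padicValNat p (xc (P + P + P)).den = padicValNat p (xc P).den

/-- the hypotheses on the sequence of the `x`-coordinates of the multiples of a point -/
structure XSeq (x : ℕ → ℚ) (h C K : ℝ) : Prop where
  hpos : 0 < h
  hK : 1 ≤ K
  height : ∀ n : ℕ, 1 ≤ n → |ht (x n) - h * (n : ℝ) ^ 2| ≤ C
  sub : ∀ p : ℕ, p.Prime → ∀ n n' : ℕ, 1 ≤ n → n < n' →
    min (padicValNat p (x n).den) (padicValNat p (x n').den) ≤ padicValNat p (x (n' - n)).den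
  add : ∀ p : ℕ, p.Prime → ∀ n n' : ℕ, 1 ≤ n → 1 ≤ n' →
    min (padicValNat p (x n).den) (padicValNat p (x n').den) ≤ padicValNat p (x (n + n')).den
  real : ∀ n n' : ℕ, 1 ≤ n → n < n' →
    min |((x n : ℚ) : ℝ)| |((x n' : ℚ) : ℝ)| ≤ K * max 1 |((x (n' - n) : ℚ) : ℝ)|
  two : ∀ p : ℕ, p.Prime → p ≠ 2 → ∀ n : ℕ, 1 ≤ n → p ∣ (x n).den →
    padicValNat p (x (2 * n)).den = padicValNat p (x n).den
  three : ∀ p : ℕ, p.Prime → p ≠ 2 → p ≠ 3 → ∀ n : ℕ, 1 ≤ n → p ∣ (x n).den →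
    padicValNat p (x (3 * n)).den = padicValNat p (x n).den

/-- GAPS: a local function which is large at few integers -/
def GAPS : Prop := ∀ (l : ℕ → ℝ) (h C : ℝ), 0 < h →
  (∀ n n' : ℕ, 1 ≤ n → n < n' → min (l n) (l n') ≤ l (n' - n) + C) →
  (∀ n : ℕ, 1 ≤ n → l n ≤ h * (n : ℝ) ^ 2 + C) →
  ∀ c : ℝ, 0 < c → ∃ K : ℝ, ∀ X : ℕ, 1 ≤ X →
    (Nat.card {n : ℕ // 1 ≤ n ∧ n ≤ X ∧ c * (n : ℝ) ^ 2 ≤ l n} : ℝ) ≤ K * (1 + Real.log X)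

/-- PRIM: primitive divisors -/
def PRIM : Prop := ∀ (x : ℕ → ℚ) (h C K : ℝ), XSeq x h C K → ∀ S₀ : Finset ℕ, 2 ∈ S₀ → 3 ∈ S₀ →
  (∀ p ∈ S₀, p.Prime) → ∃ c : ℝ, 0 < c ∧ ∃ n₀ : ℕ, ∀ i j : ℕ, 1 ≤ i → 1 ≤ j →
    n₀ ≤ 2 ^ i * 3 ^ j →
    Real.log (max 1 |((x (2 ^ i * 3 ^ j) : ℚ) : ℝ)|) < c * ((2 ^ i * 3 ^ j : ℕ) : ℝ) ^ 2 →
    (∀ p ∈ S₀, (padicValNat p (x (2 ^ i * 3 ^ j)).den : ℝ) * Real.log p <
      c * ((2 ^ i * 3 ^ j : ℕ) : ℝ) ^ 2) →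
    ∃ p : ℕ, p.Prime ∧ p ∉ S₀ ∧ p ∣ (x (2 ^ i * 3 ^ j)).den ∧
      ¬ p ∣ (x (2 ^ (i - 1) * 3 ^ j)).den ∧ ¬ p ∣ (x (2 ^ i * 3 ^ (j - 1))).den

/-- EDS: many primes at which a multiple `N` is close to the point at infinity -/
def EDS : Prop := ∀ (x : ℕ → ℚ) (h C K : ℝ), XSeq x h C K → ∀ (D : ℕ), 0 < D → ∀ C₀ : ℝ,
  ∃ N : ℕ, 0 < N ∧ ∃ S : Finset ℕ, (∀ p ∈ S, p.Prime ∧ ¬ p ∣ D ∧ p ∣ (x N).den) ∧
    C₀ * (1 + Real.log N) ≤ (S.card : ℝ)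

/-- SEQ: the multiples of a point of infinite order -/
def SEQ : Prop := ∀ a b : ℤ, 4 * a ^ 3 + 27 * b ^ 2 ≠ 0 →
  ∀ P : (crv ℚ (a : ℚ) (b : ℚ)).Point, (∀ n : ℕ, 0 < n → n • P ≠ 0) →
  ∃ h C K : ℝ, XSeq (fun n => xc (n • P)) h C K

/-- RK1: finitely generated abelian groups of rank at most one -/
def RK1 : Prop := ∀ (G : Type) [AddCommGroup G] [AddGroup.FG G],
  (∀ Q R : G, ∃ m n : ℤ, (m ≠ 0 ∨ n ≠ 0) ∧ m • Q + n • R = 0) →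
  ∃ T : ℕ, 0 < T ∧ ∃ P : G, (P = 0 ∨ ∀ k : ℕ, 0 < k → k • P ≠ 0) ∧
    ∀ Q : G, ∃ n : ℤ, T • Q = n • P

/-- ABSP: abstract sieve, density zero -/
def ABSP : Prop := ∀ (G : Type) [AddCommGroup G] [AddGroup.FG G] (ι : Type) [Fintype ι]
  (d : ℕ) (deg : ι → Fin d) (good : ℕ → Prop) (V : (p : ℕ) → G → ι → ZMod p)
  (B : (p : ℕ) → Set (Fin d → ZMod p)) (η : ℝ), 1 ≤ d → 0 < η → η ≤ 1 →
  (∀ p : ℕ, p.Prime → good p → (∀ P i, ∃ j, deg j = i ∧ V p P j ≠ 0) ∧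
    (Nat.card (B p) : ℝ) ≤ (1 - η) * (p : ℝ) ^ d) →
  (∀ C₀ : ℝ, ∃ N : ℕ, 0 < N ∧ ∃ S : Finset ℕ, (∀ p ∈ S, p.Prime ∧ good p ∧
    ∀ P P' R : G, P = P' + N • R → V p P = V p P') ∧ C₀ * (1 + Real.log N) ≤ (S.card : ℝ)) →
  ∀ ε : ℝ, 0 < ε → ∃ H₀ : ℕ, ∀ H : ℕ, H₀ ≤ H →
    (Nat.card {c : ι → ℤ // (∀ j, |c j| ≤ H) ∧ ∃ P : G, ∀ p : ℕ, p.Prime → good p →
      (fun i => ∑ j, if deg j = i then (c j : ZMod p) * V p P j else 0) ∈ B p} : ℝ) ≤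
      ε * (2 * (H : ℝ) + 1) ^ (Fintype.card ι)

/-- MAINR: rank at most one -/
def MAINR : Prop := ∀ (a b : ℤ), 4 * a ^ 3 + 27 * b ^ 2 ≠ 0 →
  (∀ Q R : (crv ℚ (a : ℚ) (b : ℚ)).Point, ∃ m n : ℤ, (m ≠ 0 ∨ n ≠ 0) ∧ m • Q + n • R = 0) →
  ∀ (r m d : ℕ), 1 ≤ r → 2 ≤ m → 2 ≤ d → ∀ ε : ℝ, 0 < ε → ∃ H₀ : ℕ, ∀ H : ℕ, H₀ ≤ H →
    (Nat.card {c : Idx r m d → ℤ // (∀ s, |c s| ≤ H) ∧
      HasPointD ℚ (fun _ => a) (fun _ => b) c} : ℝ) ≤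
      ε * (2 * (H : ℝ) + 1) ^ (Fintype.card (Idx r m d))

end Pool.Agent.H925R3.RR
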