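import Mathlib
import Pool.Agent.H925R3.RR.Stubs
import Pool.Agent.H925R3.DC.Abs
import Pool.Agent.H925R3.DC.Main
import Pool.Agent.H911R5.DC_PAR

/-! Abstract sieve with density zero. -/

namespace Pool.Agent.H925R3.RR

open Finset Pool.Agent.H925R3.DC Pool.Agent.H925R3.DD

/-- choice of the parameter `k` -/
theorem choose_param (t q : ℕ) (hq : 1 ≤ q) (η ε : ℝ) (hη0 : 0 < η) (hη1 : η ≤ 1) (hε : 0 < ε) :
    ∃ C₀ : ℝ, 1 ≤ C₀ ∧ ∀ N s : ℕ, 0 < N → C₀ * (1 + Real.log N) ≤ (s : ℝ) →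
      1 ≤ s / q ∧ ∃ k : ℕ, 0 < (s / q).choose k ∧
        (N : ℝ) ^ t ≤ ε * (η ^ (2 * k) * ((s / q).choose k : ℝ)) := by
  have hqR : (1 : ℝ) ≤ q := by exact_mod_cast hq
  have hη2 : 0 < η ^ 2 := by positivity
  have hη21 : η ^ 2 ≤ 1 := pow_le_one₀ hη0.le hη1
  set L : ℝ := |Real.log (1 / ε)| with hL
  have hL0 : 0 ≤ L := abs_nonneg _
  refine ⟨18 * q / η ^ 2 * (t + L + 3), ?_, ?_⟩
  · have h1 : (1 : ℝ) ≤ 18 * q / η ^ 2 := by
      rw [le_div_iff₀ hη2]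
      nlinarith
    have h2 : (1 : ℝ) ≤ t + L + 3 := by
      have : (0 : ℝ) ≤ t := Nat.cast_nonneg t
      linarith
    nlinarith
  intro N s hN hs
  have hN1 : (1 : ℝ) ≤ N := by exact_mod_cast hN
  have hlN : 0 ≤ Real.log N := Real.log_nonneg hN1
  set n : ℕ := s / q with hn
  have ht0 : (0 : ℝ) ≤ t := Nat.cast_nonneg t
  have h1 : (s : ℝ) ≤ q * (n + 1) := by
    have h3 := (Nat.lt_mul_div_succ s (show 0 < q by omega)).le
    have h4 : (s : ℝ) ≤ ((q * (s / q + 1) : ℕ) : ℝ) := by exact_mod_cast h3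
    push_cast at h4
    simpa [hn] using h4
  have h2 : 18 * q / η ^ 2 * (t * Real.log N + L + 3) ≤ 18 * q / η ^ 2 * (t + L + 3) *
      (1 + Real.log N) := by
    rw [mul_assoc]
    apply mul_le_mul_of_nonneg_left _ (by positivity)
    nlinarith
  have h3 : 18 / η ^ 2 * (t * Real.log N + L + 3) ≤ n + 1 := by
    have h4 : 18 * q / η ^ 2 * (t * Real.log N + L + 3) ≤ q * (n + 1) := h2.trans (hs.trans h1)
    have h5 : 18 * q / η ^ 2 * (t * Real.log N + L + 3) =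
        q * (18 / η ^ 2 * (t * Real.log N + L + 3)) := by ring
    rw [h5] at h4
    exact le_of_mul_le_mul_left h4 (by linarith)
  have h6 : t * Real.log N + L + 2 ≤ n * (η ^ 2 / 18) := by
    have h7 : (t * Real.log N + L + 3) ≤ (n + 1) * (η ^ 2 / 18) := by
      have := mul_le_mul_of_nonneg_right h3 (show 0 ≤ η ^ 2 / 18 by positivity)
      calc _ = 18 / η ^ 2 * (t * Real.log N + L + 3) * (η ^ 2 / 18) := by
            field_simp
        _ ≤ _ := this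
    nlinarith
  have hnpos : 1 ≤ n := by
    by_contra hcon
    have h0 : n = 0 := Nat.lt_one_iff.1 (not_le.1 hcon)
    rw [h0] at h6
    have : 0 ≤ t * Real.log N := by positivity
    norm_num at h6
    linarith
  refine ⟨hnpos, ⌊(n : ℝ) * (η ^ 2 / 18)⌋₊, ?_⟩
  set k := ⌊(n : ℝ) * (η ^ 2 / 18)⌋₊ with hk
  have hk1 : (k : ℝ) ≤ n * (η ^ 2 / 18) := Nat.floor_le (by positivity)
  have hk2 : n * (η ^ 2 / 18) - 1 ≤ (k : ℝ) := (Nat.sub_one_lt_floor _).le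
  have hk3 : t * Real.log N + L + 1 ≤ k := by linarith
  have hY : (1 : ℝ) ≤ 9 / η ^ 2 := by
    rw [le_div_iff₀ hη2]
    linarith
  have h8 : (9 / η ^ 2) ^ k ≤ (n.choose k : ℝ) := by
    apply Pool.Agent.H911R5.DCPAR.choose_ge hY
    calc 2 * (k : ℝ) * (9 / η ^ 2) ≤ 2 * ((n : ℝ) * (η ^ 2 / 18)) * (9 / η ^ 2) := by gcongr
      _ = (n : ℝ) := by field_simp; norm_num
  have hch : 0 < n.choose k := by
    have : (0 : ℝ) < n.choose k := lt_of_lt_of_le (by positivity) h8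
    exact_mod_cast this
  refine ⟨hch, ?_⟩
  have h9 : (9 : ℝ) ^ k ≤ η ^ (2 * k) * (n.choose k : ℝ) := by
    calc (9 : ℝ) ^ k = η ^ (2 * k) * (9 / η ^ 2) ^ k := by
          rw [pow_mul, ← mul_pow]
          congr 1
          field_simp
      _ ≤ _ := mul_le_mul_of_nonneg_left h8 (by positivity)
  have h10 : (N : ℝ) ^ t ≤ ε * 9 ^ k := by
    have h11 : Real.exp 1 ≤ 9 := by
      have := Real.exp_one_lt_d9
      linarith
    have h12 : Real.exp k ≤ 9 ^ k := by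
      calc Real.exp k = Real.exp 1 ^ k := by rw [← Real.exp_nat_mul, mul_one]
        _ ≤ 9 ^ k := pow_le_pow_left₀ (Real.exp_pos 1).le h11 k
    have h13 : (N : ℝ) ^ t = Real.exp (t * Real.log N) := by
      rw [mul_comm, Real.exp_mul, Real.exp_log (by linarith), Real.rpow_natCast]
    have h14 : 1 / ε ≤ Real.exp L := by
      calc 1 / ε = Real.exp (Real.log (1 / ε)) := (Real.exp_log (by positivity)).symm
        _ ≤ Real.exp L := Real.exp_le_exp.2 (le_abs_self _)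
    have h15 : (N : ℝ) ^ t * (1 / ε) ≤ 9 ^ k := by
      calc (N : ℝ) ^ t * (1 / ε) ≤ Real.exp (t * Real.log N) * Real.exp L := by
            rw [h13]
            gcongr
        _ = Real.exp (t * Real.log N + L) := (Real.exp_add _ _).symm
        _ ≤ Real.exp k := Real.exp_le_exp.2 (by linarith)
        _ ≤ 9 ^ k := h12
    calc (N : ℝ) ^ t = ε * ((N : ℝ) ^ t * (1 / ε)) := by field_simp
      _ ≤ ε * 9 ^ k := mul_le_mul_of_nonneg_left h15 hε.le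
  exact h10.trans (mul_le_mul_of_nonneg_left h9 hε.le)

theorem abs_mainP (hCLS : CLS) (hLIN : LINB) : ABSP := by
  classical
  intro G _ _ ι _ d deg good V B η₀ hd hη0 hη1 hp hS ε hε
  obtain ⟨t, ht⟩ := hCLS G
  have hd0 : 0 < d := hd
  have hsurj : Function.Surjective deg := by
    obtain ⟨N, hN, S, hS1, hS2⟩ := hS 1
    have hpos : 0 < S.card := by
      have hN1 : (1 : ℝ) ≤ N := by exact_mod_cast hN
      have hlN : 0 ≤ Real.log N := Real.log_nonneg hN1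
      have : (0 : ℝ) < S.card := by linarith
      exact_mod_cast this
    obtain ⟨p, hpS⟩ := Finset.card_pos.1 hpos
    obtain ⟨h1, h2, -⟩ := hS1 p hpS
    intro i
    obtain ⟨j, hj, -⟩ := (hp p h1 h2).1 0 i
    exact ⟨j, hj⟩
  have hne : Nonempty ι := ⟨(hsurj ⟨0, hd0⟩).choose⟩
  have hcd : d ≤ Fintype.card ι := by
    have := Fintype.card_le_of_surjective deg hsurj
    rwa [Fintype.card_fin] at this
  set c₀ := Fintype.card ι with hc₀
  have hc1 : 1 ≤ c₀ := Fintype.card_pos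
  set q := c₀ ^ d with hq
  have hq1 : 1 ≤ q := Nat.one_le_pow _ _ hc1
  obtain ⟨C₀, hC1, hC₀⟩ := choose_param t q hq1 η₀ (ε / 2) hη0 hη1 (by positivity)
  obtain ⟨N, hN, S, hS1, hS2⟩ := hS C₀
  obtain ⟨hnpos, k, hk, hNk⟩ := hC₀ N S.card hN hS2
  set n := S.card / q with hn
  obtain ⟨T, hT1, hT2⟩ := ht N hN
  set X : ℕ := S.sup id with hX
  have hch : (0 : ℝ) < n.choose k := by exact_mod_cast hk
  have hden : (0 : ℝ) < η₀ ^ (2 * k) * (n.choose k : ℝ) ^ 2 := by positivity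
  set W : ℝ := (N : ℝ) ^ t * (d * (X : ℝ) ^ (2 * k)) / η₀ ^ (2 * k) with hW
  have hW0 : 0 ≤ W := by positivity
  refine ⟨⌈2 * W / ε⌉₊, fun H hH => ?_⟩
  have hHW : 2 * W / ε ≤ H := (Nat.le_ceil _).trans (by exact_mod_cast hH)
  set A : ℝ := (n.choose k : ℝ) * (2 * (H : ℝ) + 1) ^ d +
        (n.choose k : ℝ) ^ 2 * (d * (X : ℝ) ^ (2 * k) * (2 * (H : ℝ) + 1) ^ (d - 1)) with hA
  have hA0 : 0 ≤ A := by positivity
  have hclass : ∀ g ∈ T, (Nat.card {c : ι → ℤ // (∀ j, |c j| ≤ H) ∧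
      ∀ p ∈ S, (fun i => ∑ j, if deg j = i then (c j : ZMod p) * V p g j else 0) ∈ B p} : ℝ) ≤
      A / (η₀ ^ (2 * k) * (n.choose k : ℝ) ^ 2) * (2 * (H : ℝ) + 1) ^ (c₀ - d) := by
    intro g _
    have h1 := hLIN d ι deg S k X H n η₀ (fun p => V p g) B hd hη0 hη1 (by
      intro p hpS
      obtain ⟨a1, a2, -⟩ := hS1 p hpS
      exact ⟨a1, Finset.le_sup (f := id) hpS, (hp p a1 a2).1 g, (hp p a1 a2).2⟩)
      (by
        rw [← hc₀, ← hq, hn]
        exact Nat.mul_div_le _ _) hnpos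
    rw [← hc₀, ← hA] at h1
    rw [div_mul_eq_mul_div, le_div_iff₀ hden]
    exact h1
  have hub := union_bound H T (fun c => ∃ P : G, ∀ p : ℕ, p.Prime → good p →
      (fun i => ∑ j, if deg j = i then (c j : ZMod p) * V p P j else 0) ∈ B p)
    (fun g c => ∀ p ∈ S, (fun i => ∑ j, if deg j = i then (c j : ZMod p) * V p g j else 0) ∈ B p)
    (by
      rintro c ⟨P, hP⟩
      obtain ⟨g, hg, R, hR⟩ := hT2 P
      refine ⟨g, hg, ?_⟩
      intro p hpS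
      obtain ⟨a1, a2, a3⟩ := hS1 p hpS
      have h1 := a3 P g R hR
      have h2 := hP p a1 a2
      rwa [h1] at h2) _ hclass
  refine hub.trans ?_
  have hTN : (T.card : ℝ) ≤ (N : ℝ) ^ t := by exact_mod_cast hT1
  have hH0 : (0 : ℝ) < 2 * (H : ℝ) + 1 := by positivity
  have e1 : (2 * (H : ℝ) + 1) ^ d * (2 * (H : ℝ) + 1) ^ (c₀ - d) = (2 * (H : ℝ) + 1) ^ c₀ := by
    rw [← pow_add]
    congr 1
    omega
  have e2 : (2 * (H : ℝ) + 1) ^ (d - 1) * (2 * (H : ℝ) + 1) = (2 * (H : ℝ) + 1) ^ d := by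
    rw [← pow_succ]
    congr 1
    omega
  have e3 : (2 * (H : ℝ) + 1) ^ (d - 1) * (2 * (H : ℝ) + 1) ^ (c₀ - d) =
      (2 * (H : ℝ) + 1) ^ c₀ / (2 * (H : ℝ) + 1) := by
    rw [eq_div_iff hH0.ne', ← e1, ← e2]
    ring
  have f1 : (N : ℝ) ^ t / (η₀ ^ (2 * k) * (n.choose k : ℝ)) ≤ ε / 2 := by
    rw [div_le_iff₀ (by positivity)]
    exact hNk
  have f2 : W / (2 * (H : ℝ) + 1) ≤ ε / 2 := by
    rw [div_le_iff₀ hH0]
    have : 2 * W ≤ H * ε := by rwa [div_le_iff₀ hε] at hHW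
    nlinarith
  calc (T.card : ℝ) * (A / (η₀ ^ (2 * k) * (n.choose k : ℝ) ^ 2) * (2 * (H : ℝ) + 1) ^ (c₀ - d))
      ≤ (N : ℝ) ^ t * (A / (η₀ ^ (2 * k) * (n.choose k : ℝ) ^ 2) *
          (2 * (H : ℝ) + 1) ^ (c₀ - d)) := by
        gcongr
    _ = (N : ℝ) ^ t / (η₀ ^ (2 * k) * (n.choose k : ℝ)) *
          ((2 * (H : ℝ) + 1) ^ d * (2 * (H : ℝ) + 1) ^ (c₀ - d)) +
        W * ((2 * (H : ℝ) + 1) ^ (d - 1) * (2 * (H : ℝ) + 1) ^ (c₀ - d)) := by
        rw [hA, hW]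
        field_simp
    _ = (N : ℝ) ^ t / (η₀ ^ (2 * k) * (n.choose k : ℝ)) * (2 * (H : ℝ) + 1) ^ c₀ +
        W / (2 * (H : ℝ) + 1) * (2 * (H : ℝ) + 1) ^ c₀ := by
        rw [e1, e3]
        ring
    _ ≤ ε / 2 * (2 * (H : ℝ) + 1) ^ c₀ + ε / 2 * (2 * (H : ℝ) + 1) ^ c₀ := by gcongr
    _ = ε * (2 * (H : ℝ) + 1) ^ c₀ := by ring

end Pool.Agent.H925R3.RR
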