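import Mathlib
import Pool.Agent.H925R3.RR.Abs

/-! Abstract sieve with a saving of any power of the logarithm. -/

namespace Pool.Agent.H925R3.RR

open Finset Filter Topology Pool.Agent.H925R3.DC Pool.Agent.H925R3.DD

theorem paramQ (t q d U : ℕ) (hq : 1 ≤ q) (hU : 1 ≤ U) (η A C₁ : ℝ) (hη0 : 0 < η) (hη1 : η ≤ 1)
    (hA : 0 < A) :
    ∃ C₀ : ℝ, ∀ I₀ : ℕ, ∃ H₀ : ℕ, ∀ H : ℕ, H₀ ≤ H → ∃ I : ℕ, I₀ ≤ I ∧
      ∀ s : ℕ, C₀ * (1 + I) ≤ (s : ℝ) →
      1 ≤ s / q ∧ ∃ k : ℕ, 0 < (s / q).choose k ∧
      ((U * 6 ^ I : ℕ) : ℝ) ^ t ≤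
        (Real.log H) ^ (-A) / 2 * (η ^ (2 * k) * ((s / q).choose k : ℝ)) ∧
      ((U * 6 ^ I : ℕ) : ℝ) ^ t * (d * (⌊Real.exp (C₁ * 36 ^ I)⌋₊ : ℝ) ^ (2 * k)) / η ^ (2 * k) ≤
        (Real.log H) ^ (-A) / 2 * (2 * H + 1) := by
  have hqR : (1 : ℝ) ≤ q := by exact_mod_cast hq
  have hUR : (1 : ℝ) ≤ U := by exact_mod_cast hU
  have hlU : 0 ≤ Real.log U := Real.log_nonneg hUR
  have hl6 : 0 < Real.log 6 := Real.log_pos (by norm_num)
  have hl61 : 1 ≤ Real.log 6 := by
    rw [Real.le_log_iff_exp_le (by norm_num)]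
    have := Real.exp_one_lt_d9
    linarith
  have hl62 : Real.log 6 ≤ 6 := (Real.log_le_sub_one_of_pos (by norm_num)).trans (by norm_num)
  have hη2 : 0 < η ^ 2 := by positivity
  have hη21 : η ^ 2 ≤ 1 := pow_le_one₀ hη0.le hη1
  have ht0 : (0 : ℝ) ≤ t := Nat.cast_nonneg t
  have hd0 : (0 : ℝ) ≤ d := Nat.cast_nonneg d
  set K : ℝ := t * (Real.log U + Real.log 6) + 1 + 3 * A * Real.log 6 with hK
  have hK0 : 0 ≤ K := by positivity
  set M : ℝ := -Real.log η with hM
  have hM0 : 0 ≤ M := by
    rw [hM]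
    have := Real.log_nonpos hη0.le hη1
    linarith
  set c₂ : ℝ := 12 * (t * (Real.log U + 6) + d + A + 1 + 2 * (K + 1) * (|C₁| + M)) + 1 with hc₂
  have hc₂1 : 1 ≤ c₂ := by
    have : 0 ≤ t * (Real.log U + 6) + d + A + 1 + 2 * (K + 1) * (|C₁| + M) := by positivity
    linarith
  refine ⟨q * (18 / η ^ 2 * (K + 1) + 2), fun I₀ => ?_⟩
  have hLL : Tendsto (fun H : ℕ => Real.log (Real.log H)) atTop atTop :=
    Real.tendsto_log_atTop.comp (Real.tendsto_log_atTop.comp tendsto_natCast_atTop_atTop)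
  have hL : Tendsto (fun H : ℕ => Real.log H) atTop atTop :=
    Real.tendsto_log_atTop.comp tendsto_natCast_atTop_atTop
  have hev := ((hLL.eventually_ge_atTop
    (max (3 * Real.log 6 * (I₀ + 1)) (4 * Real.log c₂))).and
    ((hL.eventually_ge_atTop 1).and (eventually_ge_atTop 1)))
  obtain ⟨H₀, hH₀⟩ := hev.exists_forall_of_atTop
  refine ⟨H₀, fun H hH => ?_⟩
  obtain ⟨h1, h2, h3⟩ := hH₀ H hH
  set L : ℝ := Real.log H with hLdef
  set l : ℝ := Real.log L with hl
  have hl1 : 3 * Real.log 6 * (I₀ + 1) ≤ l := (le_max_left _ _).trans h1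
  have hl2 : 4 * Real.log c₂ ≤ l := (le_max_right _ _).trans h1
  have hL1 : 1 ≤ L := h2
  have hl0 : 0 ≤ l := Real.log_nonneg hL1
  have hexpl : Real.exp l = L := Real.exp_log (by linarith)
  have hHR : (1 : ℝ) ≤ H := by exact_mod_cast h3
  have hexpL : Real.exp L = H := Real.exp_log (by linarith)
  set I : ℕ := ⌊l / (3 * Real.log 6)⌋₊ with hI
  have h36 : 0 < 3 * Real.log 6 := by positivity
  have hI1 : (I : ℝ) * (3 * Real.log 6) ≤ l := by
    have := Nat.floor_le (show 0 ≤ l / (3 * Real.log 6) by positivity)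
    rwa [le_div_iff₀ h36] at this
  have hI2 : l ≤ (I + 1) * (3 * Real.log 6) := by
    have := (Nat.lt_floor_add_one (l / (3 * Real.log 6))).le
    rwa [div_le_iff₀ h36] at this
  have hI0 : I₀ ≤ I := by
    have : ((I₀ : ℝ) + 1) ≤ I + 1 := by
      have h4 : 3 * Real.log 6 * ((I₀ : ℝ) + 1) ≤ 3 * Real.log 6 * (I + 1) := by
        calc _ ≤ l := hl1
          _ ≤ _ := hI2
          _ = _ := by ring
      exact le_of_mul_le_mul_left h4 h36
    exact_mod_cast (by linarith : (I₀ : ℝ) ≤ I)
  have hIR : (0 : ℝ) ≤ I := Nat.cast_nonneg I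
  have hIl : (I : ℝ) ≤ l := by
    have : (I : ℝ) * 1 ≤ I * (3 * Real.log 6) := mul_le_mul_of_nonneg_left (by linarith) hIR
    linarith
  refine ⟨I, hI0, fun s hs => ?_⟩
  set n : ℕ := s / q with hn
  have h4 : (s : ℝ) ≤ q * (n + 1) := by
    have h3 := (Nat.lt_mul_div_succ s (show 0 < q by omega)).le
    have h4 : (s : ℝ) ≤ ((q * (s / q + 1) : ℕ) : ℝ) := by exact_mod_cast h3
    push_cast at h4
    simpa [hn] using h4
  have h5 : (18 / η ^ 2 * (K + 1) + 2) * (1 + I) ≤ (n : ℝ) + 1 := by
    have h6 : q * ((18 / η ^ 2 * (K + 1) + 2) * (1 + I)) ≤ q * ((n : ℝ) + 1) := by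
      calc _ = q * (18 / η ^ 2 * (K + 1) + 2) * (1 + I) := by ring
        _ ≤ s := hs
        _ ≤ _ := h4
    exact le_of_mul_le_mul_left h6 (by linarith)
  have h18 : 0 ≤ 18 / η ^ 2 * (K + 1) := by positivity
  have h6 : 18 / η ^ 2 * (K * (1 + I) + 1) + 1 ≤ n := by
    have h7 : 18 / η ^ 2 * (K * (1 + I) + 1) ≤ 18 / η ^ 2 * ((K + 1) * (1 + I)) := by
      apply mul_le_mul_of_nonneg_left _ (by positivity)
      have : (K + 1) * (1 + I) = K * (1 + I) + 1 + I := by ring
      rw [this]
      linarith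
    have h8 : (18 / η ^ 2 * (K + 1) + 2) * (1 + I) =
        18 / η ^ 2 * ((K + 1) * (1 + I)) + 2 + 2 * I := by ring
    rw [h8] at h5
    linarith
  have hnpos : 1 ≤ n := by
    have : (1 : ℝ) ≤ n := by
      have : 0 ≤ 18 / η ^ 2 * (K * (1 + I) + 1) := by positivity
      linarith
    exact_mod_cast this
  refine ⟨hnpos, ⌈K * (1 + I)⌉₊, ?_⟩
  set k := ⌈K * (1 + I)⌉₊ with hk
  have hk1 : (k : ℝ) ≤ K * (1 + I) + 1 := (Nat.ceil_lt_add_one (by positivity)).le
  have hk2 : K * (1 + I) ≤ k := Nat.le_ceil _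
  have hY : (1 : ℝ) ≤ 9 / η ^ 2 := by
    rw [le_div_iff₀ hη2]
    linarith
  have h8 : (9 / η ^ 2) ^ k ≤ (n.choose k : ℝ) := by
    apply Pool.Agent.H911R5.DCPAR.choose_ge hY
    have h9 : 2 * (k : ℝ) * (9 / η ^ 2) = 18 / η ^ 2 * k := by ring
    rw [h9]
    have h10 : 18 / η ^ 2 * k ≤ 18 / η ^ 2 * (K * (1 + I) + 1) :=
      mul_le_mul_of_nonneg_left hk1 (by positivity)
    linarith
  have hch : 0 < n.choose k := by
    have : (0 : ℝ) < n.choose k := lt_of_lt_of_le (by positivity) h8
    exact_mod_cast this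
  have h9 : (9 : ℝ) ^ k ≤ η ^ (2 * k) * (n.choose k : ℝ) := by
    calc (9 : ℝ) ^ k = η ^ (2 * k) * (9 / η ^ 2) ^ k := by
          rw [pow_mul, ← mul_pow]
          congr 1
          field_simp
      _ ≤ _ := mul_le_mul_of_nonneg_left h8 (by positivity)
  have h11 : Real.exp 1 ≤ 9 := by
    have := Real.exp_one_lt_d9
    linarith
  have h12 : Real.exp k ≤ 9 ^ k := by
    calc Real.exp k = Real.exp 1 ^ k := by rw [← Real.exp_nat_mul, mul_one]
      _ ≤ 9 ^ k := pow_le_pow_left₀ (Real.exp_pos 1).le h11 k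
  have hN : ((U * 6 ^ I : ℕ) : ℝ) = Real.exp (Real.log U + I * Real.log 6) := by
    rw [Real.exp_add, Real.exp_log (by linarith), mul_comm (I : ℝ), Real.exp_mul,
      Real.exp_log (by norm_num), Real.rpow_natCast]
    push_cast
    ring
  have hNt : ((U * 6 ^ I : ℕ) : ℝ) ^ t = Real.exp (t * (Real.log U + I * Real.log 6)) := by
    rw [hN, ← Real.exp_nat_mul]
  have hLA : L ^ (-A) = Real.exp (-(A * l)) := by
    rw [← hexpl, ← Real.exp_mul]
    congr 1
    ring
  have hhalf : Real.exp (-1) ≤ 1 / 2 := by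
    rw [Real.exp_neg, ← one_div]
    apply one_div_le_one_div_of_le (by norm_num)
    have := Real.exp_one_gt_d9
    linarith
  have hhalf' : Real.exp (-1) ≤ 1 / 2 := hhalf
  refine ⟨hch, ?_, ?_⟩
  · have h13 : Real.exp (t * (Real.log U + I * Real.log 6)) ≤
        Real.exp (-(A * l)) / 2 * Real.exp k := by
      have h14 : Real.exp (t * (Real.log U + I * Real.log 6) + A * l + 1) ≤ Real.exp k := by
        apply Real.exp_le_exp.2
        have h15 : A * l ≤ A * ((I + 1) * (3 * Real.log 6)) := mul_le_mul_of_nonneg_left hI2 hA.le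
        have h16 : t * (Real.log U + I * Real.log 6) ≤ t * (Real.log U + Real.log 6) * (1 + I) := by
          have : (Real.log U + I * Real.log 6) ≤ (Real.log U + Real.log 6) * (1 + I) := by
            have h0 := mul_nonneg hIR hlU
            have h1 : (Real.log U + Real.log 6) * (1 + I) =
              Real.log U + I * Real.log U + Real.log 6 + I * Real.log 6 := by ring
            rw [h1]
            linarith
          calc _ ≤ t * ((Real.log U + Real.log 6) * (1 + I)) := mul_le_mul_of_nonneg_left this ht0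
            _ = _ := by ring
        refine le_trans ?_ hk2
        have h18' : K * (1 + I) = t * (Real.log U + Real.log 6) * (1 + I) + (1 + I) +
            A * ((I + 1) * (3 * Real.log 6)) := by rw [hK]; ring
        rw [h18']
        linarith
      have h17 : Real.exp (t * (Real.log U + I * Real.log 6)) =
          Real.exp (-(A * l)) * (Real.exp (-1) *
            Real.exp (t * (Real.log U + I * Real.log 6) + A * l + 1)) := by
        rw [← Real.exp_add, ← Real.exp_add]
        congr 1
        ring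
      rw [h17]
      calc Real.exp (-(A * l)) * (Real.exp (-1) *
            Real.exp (t * (Real.log U + I * Real.log 6) + A * l + 1)) ≤
          Real.exp (-(A * l)) * (Real.exp (-1) * Real.exp k) := by gcongr
        _ ≤ Real.exp (-(A * l)) * (1 / 2 * Real.exp k) := by
          have := Real.exp_pos (k : ℝ)
          gcongr
        _ = _ := by ring
    rw [hNt, hLA]
    refine h13.trans ?_
    apply mul_le_mul_of_nonneg_left (h12.trans h9) (by positivity)
  · rw [hNt, hLA]
    -- bounds of the factors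
    have hX : (⌊Real.exp (C₁ * 36 ^ I)⌋₊ : ℝ) ≤ Real.exp (|C₁| * Real.exp (2 * l / 3)) := by
      refine (Nat.floor_le (Real.exp_pos _).le).trans (Real.exp_le_exp.2 ?_)
      have h15 : (36 : ℝ) ^ I ≤ Real.exp (2 * l / 3) := by
        have h16 : (36 : ℝ) ^ I = Real.exp (I * (2 * Real.log 6)) := by
          rw [Real.exp_nat_mul, mul_comm 2 (Real.log 6), Real.exp_mul, Real.exp_log (by norm_num)]
          norm_num
        rw [h16]
        apply Real.exp_le_exp.2
        linarith
      calc C₁ * 36 ^ I ≤ |C₁| * 36 ^ I :=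
            mul_le_mul_of_nonneg_right (le_abs_self _) (by positivity)
        _ ≤ _ := mul_le_mul_of_nonneg_left h15 (abs_nonneg _)
    have hX2 : (⌊Real.exp (C₁ * 36 ^ I)⌋₊ : ℝ) ^ (2 * k) ≤
        Real.exp (2 * k * (|C₁| * Real.exp (2 * l / 3))) := by
      calc _ ≤ Real.exp (|C₁| * Real.exp (2 * l / 3)) ^ (2 * k) :=
            pow_le_pow_left₀ (Nat.cast_nonneg _) hX _
        _ = _ := by
            rw [← Real.exp_nat_mul]
            push_cast
            ring_nf
    have hηk : (η ^ (2 * k))⁻¹ = Real.exp (2 * k * M) := by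
      have e1 : η ^ (2 * k) = Real.exp ((2 * k : ℕ) * Real.log η) := by
        rw [Real.exp_nat_mul, Real.exp_log hη0]
      rw [e1, ← Real.exp_neg]
      congr 1
      push_cast
      rw [hM]
      ring
    have hdexp : (d : ℝ) ≤ Real.exp d := by
      have := Real.add_one_le_exp (d : ℝ)
      linarith
    have hmain : Real.exp (t * (Real.log U + I * Real.log 6)) *
        (Real.exp d * Real.exp (2 * k * (|C₁| * Real.exp (2 * l / 3)))) *
        Real.exp (2 * k * M) ≤ Real.exp (-(A * l)) * (Real.exp (-1) * Real.exp L) := by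
      rw [← Real.exp_add, ← Real.exp_add, ← Real.exp_add, ← Real.exp_add, ← Real.exp_add]
      apply Real.exp_le_exp.2
      set E : ℝ := Real.exp (2 * l / 3) with hE
      have hE1 : 1 ≤ E := Real.one_le_exp (by positivity)
      have hw : (1 + l) ≤ 12 * Real.exp (l / 12) := by
        have := Real.add_one_le_exp (l / 12)
        linarith
      have hkk : (k : ℝ) ≤ (K + 1) * (1 + l) := by
        have h0 : K * (1 + I) ≤ K * (1 + l) := mul_le_mul_of_nonneg_left (by linarith) hK0
        have h1 : (K + 1) * (1 + l) = K * (1 + l) + 1 + l := by ring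
        rw [h1]
        linarith
      have hk0 : (0 : ℝ) ≤ k := Nat.cast_nonneg k
      have hl1' : 1 ≤ 1 + l := by linarith
      have hlE0 : 1 + l ≤ (1 + l) * E := le_mul_of_one_le_right (by linarith) hE1
      have hlE : 1 ≤ (1 + l) * E := hl1'.trans hlE0
      have a1 : t * (Real.log U + I * Real.log 6) ≤ t * (Real.log U + 6) * ((1 + l) * E) := by
        have : Real.log U + I * Real.log 6 ≤ (Real.log U + 6) * ((1 + l) * E) := by
          have b1 : Real.log U + I * Real.log 6 ≤ (Real.log U + 6) * (1 + l) := by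
            have : (I : ℝ) * Real.log 6 ≤ l * 6 := by
              apply mul_le_mul hIl hl62 hl6.le hl0
            have h0 := mul_nonneg hlU hl0
            have h1 : (Real.log U + 6) * (1 + l) = Real.log U + Real.log U * l + 6 + l * 6 := by ring
            rw [h1]
            linarith
          refine b1.trans ?_
          exact mul_le_mul_of_nonneg_left hlE0 (by positivity)
        calc _ ≤ t * ((Real.log U + 6) * ((1 + l) * E)) := mul_le_mul_of_nonneg_left this ht0
          _ = _ := by ring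
      have a2 : (d : ℝ) ≤ d * ((1 + l) * E) := le_mul_of_one_le_right hd0 hlE
      have a3 : 2 * k * (|C₁| * E) ≤ 2 * (K + 1) * |C₁| * ((1 + l) * E) := by
        have : (k : ℝ) * (|C₁| * E) ≤ (K + 1) * (1 + l) * (|C₁| * E) :=
          mul_le_mul_of_nonneg_right hkk (by positivity)
        calc 2 * k * (|C₁| * E) = 2 * ((k : ℝ) * (|C₁| * E)) := by ring
          _ ≤ 2 * ((K + 1) * (1 + l) * (|C₁| * E)) := by linarith
          _ = _ := by ring
      have a4 : 2 * k * M ≤ 2 * (K + 1) * M * ((1 + l) * E) := by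
        have b1 : (k : ℝ) * M ≤ (K + 1) * (1 + l) * M := mul_le_mul_of_nonneg_right hkk hM0
        have b2 : (K + 1) * (1 + l) * M ≤ (K + 1) * (1 + l) * M * E :=
          le_mul_of_one_le_right (by positivity) hE1
        calc 2 * k * M = 2 * ((k : ℝ) * M) := by ring
          _ ≤ 2 * ((K + 1) * (1 + l) * M) := by linarith
          _ ≤ 2 * ((K + 1) * (1 + l) * M * E) := by linarith
          _ = _ := by ring
      have a5 : A * l + 1 ≤ (A + 1) * ((1 + l) * E) := by
        have : A * l ≤ A * ((1 + l) * E) := by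
          apply mul_le_mul_of_nonneg_left _ hA.le
          linarith
        have h1 : (A + 1) * ((1 + l) * E) = A * ((1 + l) * E) + (1 + l) * E := by ring
        rw [h1]
        linarith
      have a6 : (1 + l) * E ≤ 12 * Real.exp (3 * l / 4) := by
        calc (1 + l) * E ≤ 12 * Real.exp (l / 12) * E :=
              mul_le_mul_of_nonneg_right hw (by positivity)
          _ = 12 * (Real.exp (l / 12) * Real.exp (2 * l / 3)) := by rw [hE]; ring
          _ = _ := by
              rw [← Real.exp_add]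
              congr 2
              ring
      have a7 : c₂ * Real.exp (3 * l / 4) ≤ L := by
        calc c₂ * Real.exp (3 * l / 4) = Real.exp (Real.log c₂) * Real.exp (3 * l / 4) := by
              rw [Real.exp_log (by linarith)]
          _ = Real.exp (Real.log c₂ + 3 * l / 4) := (Real.exp_add _ _).symm
          _ ≤ Real.exp l := Real.exp_le_exp.2 (by linarith)
          _ = L := hexpl
      set Z : ℝ := t * (Real.log U + 6) + d + A + 1 + 2 * (K + 1) * (|C₁| + M) with hZ
      have hZ0 : 0 ≤ Z := by positivity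
      have a8 : Z * ((1 + l) * E) ≤ 12 * Z * Real.exp (3 * l / 4) := by
        calc Z * ((1 + l) * E) ≤ Z * (12 * Real.exp (3 * l / 4)) :=
              mul_le_mul_of_nonneg_left a6 hZ0
          _ = _ := by ring
      have a9 : 12 * Z * Real.exp (3 * l / 4) ≤ c₂ * Real.exp (3 * l / 4) := by
        apply mul_le_mul_of_nonneg_right _ (Real.exp_pos _).le
        rw [hc₂]
        linarith
      have a10 : t * (Real.log U + I * Real.log 6) + (d + 2 * k * (|C₁| * E)) + 2 * k * M +
          (A * l + 1) ≤ Z * ((1 + l) * E) := by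
        have : Z * ((1 + l) * E) = t * (Real.log U + 6) * ((1 + l) * E) + d * ((1 + l) * E) +
          2 * (K + 1) * |C₁| * ((1 + l) * E) + 2 * (K + 1) * M * ((1 + l) * E) +
          (A + 1) * ((1 + l) * E) := by rw [hZ]; ring
        rw [this]
        linarith
      linarith
    rw [div_eq_mul_inv, hηk]
    calc Real.exp (t * (Real.log U + I * Real.log 6)) *
          (d * (⌊Real.exp (C₁ * 36 ^ I)⌋₊ : ℝ) ^ (2 * k)) * Real.exp (2 * k * M)
        ≤ Real.exp (t * (Real.log U + I * Real.log 6)) *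
          (Real.exp d * Real.exp (2 * k * (|C₁| * Real.exp (2 * l / 3)))) *
          Real.exp (2 * k * M) := by gcongr
      _ ≤ Real.exp (-(A * l)) * (Real.exp (-1) * Real.exp L) := hmain
      _ ≤ Real.exp (-(A * l)) * (1 / 2 * (2 * H + 1)) := by
          rw [hexpL]
          gcongr
          linarith
      _ = _ := by ring

end Pool.Agent.H925R3.RR
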