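import Mathlib
import Pool.Agent.H925R3.RR.AbsQ

/-! Abstract sieve with a saving of any power of the logarithm: the theorem. -/

namespace Pool.Agent.H925R3.RR

open Finset Filter Topology Pool.Agent.H925R3.DC Pool.Agent.H925R3.DD

/-- ABSQ: abstract sieve, saving of any power of `log H` -/
def ABSQ : Prop := ∀ (G : Type) [AddCommGroup G] [AddGroup.FG G] (ι : Type) [Fintype ι]
  (d : ℕ) (deg : ι → Fin d) (good : ℕ → Prop) (V : (p : ℕ) → G → ι → ZMod p)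
  (B : (p : ℕ) → Set (Fin d → ZMod p)) (η : ℝ), 1 ≤ d → 0 < η → η ≤ 1 →
  (∀ p : ℕ, p.Prime → good p → (∀ P i, ∃ j, deg j = i ∧ V p P j ≠ 0) ∧
    (Nat.card (B p) : ℝ) ≤ (1 - η) * (p : ℝ) ^ d) →
  ∀ (C₁ : ℝ) (U : ℕ), 0 < U →
  (∀ C₀ : ℝ, ∃ I₀ : ℕ, ∀ I : ℕ, I₀ ≤ I → ∃ S : Finset ℕ, (∀ p ∈ S, p.Prime ∧ good p ∧
    (p : ℝ) ≤ Real.exp (C₁ * 36 ^ I) ∧
    ∀ P P' R : G, P = P' + (U * 6 ^ I) • R → V p P = V p P') ∧ C₀ * (1 + I) ≤ (S.card : ℝ)) →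
  ∀ A : ℝ, 0 < A → ∃ C : ℝ, ∀ H : ℕ, 2 ≤ H →
    (Nat.card {c : ι → ℤ // (∀ j, |c j| ≤ H) ∧ ∃ P : G, ∀ p : ℕ, p.Prime → good p →
      (fun i => ∑ j, if deg j = i then (c j : ZMod p) * V p P j else 0) ∈ B p} : ℝ) ≤
      C * (Real.log H) ^ (-A) * (2 * (H : ℝ) + 1) ^ (Fintype.card ι)

theorem abs_mainQ (hCLS : CLS) (hLIN : LINB) : ABSQ := by
  classical
  intro G _ _ ι _ d deg good V B η₀ hd hη0 hη1 hp C₁ U hU hS A hA
  obtain ⟨t, ht⟩ := hCLS G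
  have hd0 : 0 < d := hd
  have hsurj : Function.Surjective deg := by
    obtain ⟨I₀, hI₀⟩ := hS 1
    obtain ⟨S, hS1, hS2⟩ := hI₀ I₀ le_rfl
    have hpos : 0 < S.card := by
      have : (0 : ℝ) < S.card := by
        have : (0 : ℝ) ≤ I₀ := Nat.cast_nonneg _
        linarith
      exact_mod_cast this
    obtain ⟨p, hpS⟩ := Finset.card_pos.1 hpos
    obtain ⟨h1, h2, -⟩ := hS1 p hpS
    intro i
    obtain ⟨j, hj, -⟩ := (hp p h1 h2).1 0 i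
    exact ⟨j, hj⟩
  have hne : Nonempty ι := ⟨(hsurj ⟨0, hd0⟩).choose⟩
  have hcd : d ≤ Fintype.card ι := by
    have := Fintype.card_le_of_surjective deg hsurj
    rwa [Fintype.card_fin] at this
  set c₀ := Fintype.card ι with hc₀
  have hc1 : 1 ≤ c₀ := Fintype.card_pos
  set q := c₀ ^ d with hq
  have hq1 : 1 ≤ q := Nat.one_le_pow _ _ hc1
  obtain ⟨C₀, hC₀⟩ := paramQ t q d U hq1 hU η₀ A C₁ hη0 hη1 hA
  obtain ⟨I₀, hI₀⟩ := hS C₀
  obtain ⟨H₀, hH₀⟩ := hC₀ I₀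
  set PP : (ι → ℤ) → Prop := fun c => ∃ P : G, ∀ p : ℕ, p.Prime → good p →
      (fun i => ∑ j, if deg j = i then (c j : ZMod p) * V p P j else 0) ∈ B p with hPP
  have key : ∀ H : ℕ, H₀ ≤ H →
      (Nat.card {c : ι → ℤ // (∀ j, |c j| ≤ H) ∧ PP c} : ℝ) ≤
      (Real.log H) ^ (-A) * (2 * (H : ℝ) + 1) ^ c₀ := by
    intro H hH
    obtain ⟨I, hI, hIs⟩ := hH₀ H hH
    obtain ⟨S, hS1, hS2⟩ := hI₀ I hI
    obtain ⟨hnpos, k, hk, hk2, hk3⟩ := hIs S.card hS2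
    set n := S.card / q with hn
    set N : ℕ := U * 6 ^ I with hN
    have hN0 : 0 < N := Nat.mul_pos hU (pow_pos (by norm_num) _)
    obtain ⟨T, hT1, hT2⟩ := ht N hN0
    set X : ℕ := ⌊Real.exp (C₁ * 36 ^ I)⌋₊ with hX
    have hch : (0 : ℝ) < n.choose k := by exact_mod_cast hk
    have hden : (0 : ℝ) < η₀ ^ (2 * k) * (n.choose k : ℝ) ^ 2 := by positivity
    set W : ℝ := (N : ℝ) ^ t * (d * (X : ℝ) ^ (2 * k)) / η₀ ^ (2 * k) with hW
    have hW0 : 0 ≤ W := by positivity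
    set D : ℝ := (n.choose k : ℝ) * (2 * (H : ℝ) + 1) ^ d +
          (n.choose k : ℝ) ^ 2 * (d * (X : ℝ) ^ (2 * k) * (2 * (H : ℝ) + 1) ^ (d - 1)) with hD
    have hD0 : 0 ≤ D := by positivity
    have hclass : ∀ g ∈ T, (Nat.card {c : ι → ℤ // (∀ j, |c j| ≤ H) ∧
        ∀ p ∈ S, (fun i => ∑ j, if deg j = i then (c j : ZMod p) * V p g j else 0) ∈ B p} : ℝ) ≤
        D / (η₀ ^ (2 * k) * (n.choose k : ℝ) ^ 2) * (2 * (H : ℝ) + 1) ^ (c₀ - d) := by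
      intro g _
      have h1 := hLIN d ι deg S k X H n η₀ (fun p => V p g) B hd hη0 hη1 (by
        intro p hpS
        obtain ⟨a1, a2, a3, -⟩ := hS1 p hpS
        exact ⟨a1, Nat.le_floor a3, (hp p a1 a2).1 g, (hp p a1 a2).2⟩)
        (by
          rw [← hc₀, ← hq, hn]
          exact Nat.mul_div_le _ _) hnpos
      rw [← hc₀, ← hD] at h1
      rw [div_mul_eq_mul_div, le_div_iff₀ hden]
      exact h1
    have hub := union_bound H T PP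
      (fun g c => ∀ p ∈ S, (fun i => ∑ j, if deg j = i then (c j : ZMod p) * V p g j else 0) ∈ B p)
      (by
        rintro c ⟨P, hP⟩
        obtain ⟨g, hg, R, hR⟩ := hT2 P
        refine ⟨g, hg, ?_⟩
        intro p hpS
        obtain ⟨a1, a2, -, a3⟩ := hS1 p hpS
        have h1 := a3 P g R hR
        have h2 := hP p a1 a2
        rwa [h1] at h2) _ hclass
    refine hub.trans ?_
    have hTN : (T.card : ℝ) ≤ (N : ℝ) ^ t := by exact_mod_cast hT1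
    have hH0 : (0 : ℝ) < 2 * (H : ℝ) + 1 := by positivity
    have e1 : (2 * (H : ℝ) + 1) ^ d * (2 * (H : ℝ) + 1) ^ (c₀ - d) = (2 * (H : ℝ) + 1) ^ c₀ := by
      rw [← pow_add]
      congr 1
      omega
    have e2 : (2 * (H : ℝ) + 1) ^ (d - 1) * (2 * (H : ℝ) + 1) = (2 * (H : ℝ) + 1) ^ d := by
      rw [← pow_succ]
      congr 1
      omega
    have e3 : (2 * (H : ℝ) + 1) ^ (d - 1) * (2 * (H : ℝ) + 1) ^ (c₀ - d) =
        (2 * (H : ℝ) + 1) ^ c₀ / (2 * (H : ℝ) + 1) := by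
      rw [eq_div_iff hH0.ne', ← e1, ← e2]
      ring
    have f1 : (N : ℝ) ^ t / (η₀ ^ (2 * k) * (n.choose k : ℝ)) ≤ (Real.log H) ^ (-A) / 2 := by
      rw [div_le_iff₀ (by positivity)]
      exact hk2
    have f2 : W / (2 * (H : ℝ) + 1) ≤ (Real.log H) ^ (-A) / 2 := by
      rw [div_le_iff₀ hH0]
      exact hk3
    calc (T.card : ℝ) * (D / (η₀ ^ (2 * k) * (n.choose k : ℝ) ^ 2) *
          (2 * (H : ℝ) + 1) ^ (c₀ - d))
        ≤ (N : ℝ) ^ t * (D / (η₀ ^ (2 * k) * (n.choose k : ℝ) ^ 2) *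
            (2 * (H : ℝ) + 1) ^ (c₀ - d)) := by
          gcongr
      _ = (N : ℝ) ^ t / (η₀ ^ (2 * k) * (n.choose k : ℝ)) *
            ((2 * (H : ℝ) + 1) ^ d * (2 * (H : ℝ) + 1) ^ (c₀ - d)) +
          W * ((2 * (H : ℝ) + 1) ^ (d - 1) * (2 * (H : ℝ) + 1) ^ (c₀ - d)) := by
          rw [hD, hW]
          field_simp
      _ = (N : ℝ) ^ t / (η₀ ^ (2 * k) * (n.choose k : ℝ)) * (2 * (H : ℝ) + 1) ^ c₀ +
          W / (2 * (H : ℝ) + 1) * (2 * (H : ℝ) + 1) ^ c₀ := by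
          rw [e1, e3]
          ring
      _ ≤ (Real.log H) ^ (-A) / 2 * (2 * (H : ℝ) + 1) ^ c₀ +
          (Real.log H) ^ (-A) / 2 * (2 * (H : ℝ) + 1) ^ c₀ := by gcongr
      _ = (Real.log H) ^ (-A) * (2 * (H : ℝ) + 1) ^ c₀ := by ring
  refine ⟨1 + (Real.log (H₀ + 2)) ^ A, fun H hH => ?_⟩
  have hHR : (2 : ℝ) ≤ H := by exact_mod_cast hH
  have hlog : 0 < Real.log H := Real.log_pos (by linarith)
  have hlogA : 0 < (Real.log H) ^ (-A) := Real.rpow_pos_of_pos hlog _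
  have hlog0 : 0 ≤ (Real.log ((H₀ : ℝ) + 2)) ^ A := Real.rpow_nonneg (Real.log_nonneg (by
    have : (0 : ℝ) ≤ H₀ := Nat.cast_nonneg _
    linarith)) _
  have hbox : (0 : ℝ) < (2 * (H : ℝ) + 1) ^ c₀ := by positivity
  rcases le_or_gt H₀ H with h | h
  · refine (key H h).trans ?_
    apply mul_le_mul_of_nonneg_right _ hbox.le
    nlinarith
  · have h1 := box_trivial H PP
    have h3 : (Nat.card {c : ι → ℤ // (∀ j, |c j| ≤ H) ∧ PP c} : ℝ) ≤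
        (2 * (H : ℝ) + 1) ^ c₀ := by
      rw [← hc₀] at h1
      exact_mod_cast h1
    refine h3.trans ?_
    have h4 : Real.log H ≤ Real.log ((H₀ : ℝ) + 2) := by
      apply Real.log_le_log (by linarith)
      have : (H : ℝ) ≤ H₀ := by exact_mod_cast h.le
      linarith
    have h5 : (1 : ℝ) ≤ (1 + (Real.log ((H₀ : ℝ) + 2)) ^ A) * (Real.log H) ^ (-A) := by
      have h6 : (Real.log H) ^ A ≤ (Real.log ((H₀ : ℝ) + 2)) ^ A :=
        Real.rpow_le_rpow hlog.le h4 hA.le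
      have h7 : (Real.log H) ^ A * (Real.log H) ^ (-A) = 1 := by
        rw [← Real.rpow_add hlog, add_neg_cancel, Real.rpow_zero]
      nlinarith
    calc (2 * (H : ℝ) + 1) ^ c₀ = 1 * (2 * (H : ℝ) + 1) ^ c₀ := (one_mul _).symm
      _ ≤ _ := mul_le_mul_of_nonneg_right h5 hbox.le

end Pool.Agent.H925R3.RR
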