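import Mathlib
import Pool.Agent.H443R3.RR_EDS

/-! Many primes at which the multiple `6 ^ I` is close to the point at infinity (after
`Pool.Agent.H443R3.RR_EDS`). -/

set_option autoImplicit false

namespace Pool.Agent.H925R3.RR

open Finset Pool.Agent.H443R3.RREDS

/-- EDS2: many primes at which the multiple `6 ^ I` is close to the point at infinity -/
def EDS2 : Prop := ∀ (x : ℕ → ℚ) (h C K : ℝ), XSeq x h C K → ∀ (D : ℕ), 0 < D → ∀ C₀ : ℝ,
  ∃ I₀ : ℕ, ∀ I : ℕ, I₀ ≤ I → ∃ S : Finset ℕ,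
    (∀ p ∈ S, p.Prime ∧ ¬ p ∣ D ∧ p ∣ (x (6 ^ I)).den) ∧ C₀ * (1 + I) ≤ (S.card : ℝ)

theorem eds2 (h1 : GAPS) (h2 : PRIM) : EDS2 := by
  classical
  intro x h C K hX D hD C₀'
  set C₀ : ℝ := |C₀'| with hC₀'
  set S₀ : Finset ℕ := (6 * D).primeFactors with hS₀
  have h6D : 6 * D ≠ 0 := by positivity
  have m2 : 2 ∈ S₀ := Nat.mem_primeFactors.2 ⟨Nat.prime_two, ⟨3 * D, by ring⟩, h6D⟩
  have m3 : 3 ∈ S₀ := Nat.mem_primeFactors.2 ⟨Nat.prime_three, ⟨2 * D, by ring⟩, h6D⟩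
  have mp : ∀ p ∈ S₀, p.Prime := fun p hp => Nat.prime_of_mem_primeFactors hp
  obtain ⟨c, hc, n0, H⟩ := h2 x h C K hX S₀ m2 m3 mp
  set C1 : ℝ := |C| + Real.log K with hC1
  have hlogK : 0 ≤ Real.log K := Real.log_nonneg hX.hK
  have hCC : C ≤ C1 := by
    have := le_abs_self C
    linarith
  have hC10 : 0 ≤ C1 := by positivity
  have hht : ∀ n : ℕ, 1 ≤ n → ht (x n) ≤ h * (n : ℝ) ^ 2 + C1 := by
    intro n hn
    have := (abs_le.1 (hX.height n hn)).2
    linarith
  -- the real place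
  obtain ⟨K0, hK0⟩ := h1 (fun n => Real.log (max 1 |((x n : ℚ) : ℝ)|)) h C1 hX.hpos (by
    intro n n' hn hnn
    have hr := hX.real n n' hn hnn
    have hK0 : 0 < K := lt_of_lt_of_le one_pos hX.hK
    have p1 : ∀ m, (0 : ℝ) < max 1 |((x m : ℚ) : ℝ)| := fun m =>
      lt_of_lt_of_le one_pos (le_max_left _ _)
    have key : ∀ m, |((x m : ℚ) : ℝ)| ≤ K * max 1 |((x (n' - n) : ℚ) : ℝ)| →
        Real.log (max 1 |((x m : ℚ) : ℝ)|) ≤
          Real.log (max 1 |((x (n' - n) : ℚ) : ℝ)|) + C1 := by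
      intro m hm
      have a1 : max 1 |((x m : ℚ) : ℝ)| ≤ K * max 1 |((x (n' - n) : ℚ) : ℝ)| := by
        refine max_le ?_ hm
        have := mul_le_mul hX.hK (le_max_left 1 |((x (n' - n) : ℚ) : ℝ)|) zero_le_one hK0.le
        linarith
      have a2 := Real.log_le_log (p1 m) a1
      rw [Real.log_mul hK0.ne' (p1 _).ne'] at a2
      have := abs_nonneg C
      linarith
    rcases min_le_iff.1 hr with hr | hr
    · exact (min_le_left _ _).trans (key n hr)
    · exact (min_le_right _ _).trans (key n' hr)) (by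
    intro n hn
    exact (l0_le_ht (x n)).trans (hht n hn)) c hc
  -- the primes of S₀
  have hp' : ∀ p ∈ S₀, ∃ Kp : ℝ, ∀ X : ℕ, 1 ≤ X →
      (Nat.card {n : ℕ // 1 ≤ n ∧ n ≤ X ∧ c * (n : ℝ) ^ 2 ≤
        (padicValNat p (x n).den : ℝ) * Real.log p} : ℝ) ≤ Kp * (1 + Real.log X) := by
    intro p hp
    refine h1 (fun n => (padicValNat p (x n).den : ℝ) * Real.log p) h C1 hX.hpos ?_ ?_ c hc
    · intro n n' hn hnn
      have hs := hX.sub p (mp p hp) n n' hn hnn
      have hlp : 0 ≤ Real.log (p : ℝ) := Real.log_natCast_nonneg p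
      have a1 : min ((padicValNat p (x n).den : ℝ) * Real.log p)
          ((padicValNat p (x n').den : ℝ) * Real.log p) ≤
          (padicValNat p (x (n' - n)).den : ℝ) * Real.log p := by
        rcases min_le_iff.1 hs with hs | hs
        · refine (min_le_left _ _).trans (mul_le_mul_of_nonneg_right ?_ hlp)
          exact_mod_cast hs
        · refine (min_le_right _ _).trans (mul_le_mul_of_nonneg_right ?_ hlp)
          exact_mod_cast hs
      linarith
    · intro n hn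
      exact (lp_le_ht (x n) p (mp p hp)).trans (hht n hn)
  choose! Kp hKp using hp'
  set KK : ℝ := K0 + ∑ p ∈ S₀, Kp p with hKK
  set B : ℝ := |KK| + |C₀| with hB
  have hB0 : 0 ≤ B := by positivity
  have hlog6 : 0 ≤ Real.log 6 := Real.log_nonneg (by norm_num)
  obtain ⟨I₀, hI₀⟩ := exists_nat_ge ((n0 : ℝ) + B * (1 + Real.log 6) + 1)
  refine ⟨I₀, fun I hII => ?_⟩
  have hI : (n0 : ℝ) + B * (1 + Real.log 6) + 1 ≤ I := hI₀.trans (by exact_mod_cast hII)
  have hI1 : (1 : ℝ) ≤ I := by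
    have : 0 ≤ (n0 : ℝ) := Nat.cast_nonneg _
    have : 0 ≤ B * (1 + Real.log 6) := by positivity
    linarith
  have hlogX : Real.log ((6 ^ I : ℕ) : ℝ) = I * Real.log 6 := by
    push_cast
    rw [Real.log_pow]
  have h6I : 1 ≤ 6 ^ I := Nat.one_le_pow _ _ (by norm_num)
  let P : Finset (ℕ × ℕ) := Icc 1 I ×ˢ Icc 1 I
  let E1 : Finset (ℕ × ℕ) := P.filter fun q => nf q < n0
  let E2 : Finset (ℕ × ℕ) := P.filter fun q =>
    c * (nf q : ℝ) ^ 2 ≤ Real.log (max 1 |((x (nf q) : ℚ) : ℝ)|)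
  let E3 : ℕ → Finset (ℕ × ℕ) := fun p => P.filter fun q =>
    c * (nf q : ℝ) ^ 2 ≤ (padicValNat p (x (nf q)).den : ℝ) * Real.log p
  let Exc : Finset (ℕ × ℕ) := E1 ∪ E2 ∪ S₀.biUnion E3
  have cE1 : (E1.card : ℝ) ≤ n0 := by
    have : E1.card ≤ (range n0).card := by
      refine Finset.card_le_card_of_injOn nf ?_ nf_inj.injOn
      intro q hq
      rw [mem_coe, mem_filter] at hq
      rw [mem_coe, mem_range]
      exact hq.2
    rw [card_range] at this
    exact_mod_cast this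
  have cE2 : (E2.card : ℝ) ≤ K0 * (1 + I * Real.log 6) := by
    have a1 := exc_card (fun n => Real.log (max 1 |((x n : ℚ) : ℝ)|)) c I
    have a2 := hK0 (6 ^ I) h6I
    rw [hlogX] at a2
    exact a1.trans a2
  have cE3 : ∀ p ∈ S₀, ((E3 p).card : ℝ) ≤ Kp p * (1 + I * Real.log 6) := by
    intro p hp
    have a1 := exc_card (fun n => (padicValNat p (x n).den : ℝ) * Real.log p) c I
    have a2 := hKp p hp (6 ^ I) h6I
    rw [hlogX] at a2
    exact a1.trans a2
  have cExc : (Exc.card : ℝ) ≤ n0 + KK * (1 + I * Real.log 6) := by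
    have a1 : Exc.card ≤ E1.card + E2.card + ∑ p ∈ S₀, (E3 p).card := by
      refine (card_union_le _ _).trans ?_
      exact add_le_add (card_union_le _ _) card_biUnion_le
    have a2 : (Exc.card : ℝ) ≤ E1.card + E2.card + ∑ p ∈ S₀, ((E3 p).card : ℝ) := by
      exact_mod_cast a1
    have a3 : ∑ p ∈ S₀, ((E3 p).card : ℝ) ≤ ∑ p ∈ S₀, Kp p * (1 + I * Real.log 6) :=
      sum_le_sum cE3
    rw [← sum_mul] at a3
    rw [hKK]
    linarith
  -- primes attached to the good pairs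
  have good : ∀ q ∈ P \ Exc, ∃ p : ℕ, p.Prime ∧ p ∉ S₀ ∧ p ∣ (x (nf q)).den ∧
      ¬ p ∣ (x (nf (q.1 - 1, q.2))).den ∧ ¬ p ∣ (x (nf (q.1, q.2 - 1))).den := by
    intro q hq
    rw [mem_sdiff] at hq
    obtain ⟨hqP, hqE⟩ := hq
    have hqP' := hqP
    rw [mem_product, mem_Icc, mem_Icc] at hqP'
    have b1 : n0 ≤ nf q := by
      by_contra hlt
      exact hqE (mem_union_left _ (mem_union_left _ (mem_filter.2 ⟨hqP, not_le.1 hlt⟩)))
    have b2 : Real.log (max 1 |((x (nf q) : ℚ) : ℝ)|) < c * (nf q : ℝ) ^ 2 := by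
      by_contra hlt
      exact hqE (mem_union_left _ (mem_union_right _ (mem_filter.2 ⟨hqP, not_lt.1 hlt⟩)))
    have b3 : ∀ p ∈ S₀, (padicValNat p (x (nf q)).den : ℝ) * Real.log p <
        c * (nf q : ℝ) ^ 2 := by
      intro p hp
      by_contra hlt
      exact hqE (mem_union_right _ (mem_biUnion.2 ⟨p, hp, mem_filter.2 ⟨hqP, not_lt.1 hlt⟩⟩))
    exact H q.1 q.2 hqP'.1.1 hqP'.2.1 b1 b2 b3
  choose! pr hpr using good
  have hinj : Set.InjOn pr ((P \ Exc : Finset (ℕ × ℕ)) : Set (ℕ × ℕ)) := by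
    intro q hq q' hq' heq
    obtain ⟨a1, a2, a3, a4, a5⟩ := hpr q hq
    obtain ⟨b1, b2, b3, b4, b5⟩ := hpr q' hq'
    rw [← heq] at b3 b4 b5
    have c1 := pair_le hX a1 a3 b3 a4 a5
    have c2 := pair_le hX a1 b3 a3 b4 b5
    exact Prod.ext (le_antisymm c1.1 c2.1) (le_antisymm c1.2 c2.2)
  refine ⟨(P \ Exc).image pr, ?_, ?_⟩
  · intro p hp
    obtain ⟨q, hq, rfl⟩ := mem_image.1 hp
    obtain ⟨a1, a2, a3, a4, a5⟩ := hpr q hq
    refine ⟨a1, ?_, ?_⟩
    · intro hdvd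
      exact a2 (Nat.mem_primeFactors.2 ⟨a1, hdvd.mul_left 6, h6D⟩)
    · have hqP := (mem_sdiff.1 hq).1
      rw [mem_product, mem_Icc, mem_Icc] at hqP
      have e : (6 : ℕ) ^ I = nf (I, I) := six_pow I
      rw [e]
      exact dvd_mem hX a1 (nf_pos _) (nf_pos _) (nf_dvd hqP.1.2 hqP.2.2) a3
  · rw [card_image_of_injOn hinj]
    have hlog61 : 1 ≤ Real.log 6 := by
      rw [Real.le_log_iff_exp_le (by norm_num)]
      have := Real.exp_one_lt_d9
      linarith
    have hfin : C₀' * (1 + (I : ℝ)) ≤ C₀ * (1 + I * Real.log 6) := by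
      have hIR : (0 : ℝ) ≤ I := Nat.cast_nonneg _
      calc C₀' * (1 + (I : ℝ)) ≤ |C₀'| * (1 + (I : ℝ)) :=
            mul_le_mul_of_nonneg_right (le_abs_self _) (by positivity)
        _ ≤ |C₀'| * (1 + I * Real.log 6) :=
            mul_le_mul_of_nonneg_left (by nlinarith) (abs_nonneg _)
    refine hfin.trans ?_
    have a1 : (P.card : ℝ) ≤ ((P \ Exc).card : ℝ) + Exc.card := by
      have : P.card ≤ (P \ Exc).card + Exc.card := by
        exact card_le_card_sdiff_add_card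
      exact_mod_cast this
    have a2 : (P.card : ℝ) = (I : ℝ) ^ 2 := by
      have : P.card = I * I := by
        show (Icc 1 I ×ˢ Icc 1 I).card = I * I
        rw [card_product, Nat.card_Icc]
        simp
      rw [this]
      push_cast
      ring
    have hI0 : (0 : ℝ) ≤ I := by linarith
    have a3 : KK * (1 + I * Real.log 6) + C₀ * (1 + I * Real.log 6) ≤
        B * (1 + Real.log 6) * I := by
      have b1 : KK ≤ |KK| := le_abs_self _
      have b2 : C₀ ≤ |C₀| := le_abs_self _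
      have b3 : 0 ≤ 1 + I * Real.log 6 := by positivity
      have b4 : (KK + C₀) * (1 + I * Real.log 6) ≤ B * (1 + I * Real.log 6) :=
        mul_le_mul_of_nonneg_right (by linarith) b3
      have b5 : B * (1 + I * Real.log 6) ≤ B * ((1 + Real.log 6) * I) :=
        mul_le_mul_of_nonneg_left (by nlinarith) hB0
      linarith
    have a4 : (n0 : ℝ) ≤ n0 * I := le_mul_of_one_le_right (Nat.cast_nonneg _) hI1
    have a5 : ((n0 : ℝ) + B * (1 + Real.log 6)) * I ≤ I * I :=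
      mul_le_mul_of_nonneg_right (by linarith) hI0
    nlinarith

end Pool.Agent.H925R3.RR
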