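import Mathlib
import Pool.Agent.H925R3.RR.Stubs
import Pool.Agent.H925R3.DD.Main

/-! Assembly: from the abstract sieve to covers of powers of a curve of rank at most one. -/

namespace Pool.Agent.H925R3.RR

open Finset Pool.Agent.H925R3.DC Pool.Agent.H925R3.DD

theorem notMem_of_dvd {p : ℕ} (hp : p.Prime) (O : Subring ℚ) (φ : O →+* ZMod p) {x : ℚ}
    (h : p ∣ x.den) : x ∉ O := by
  intro hx
  have h1 : ((x.den : ℤ) : O) * ⟨x, hx⟩ = ((x.num : ℤ) : O) := by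
    apply Subtype.ext
    push_cast
    exact Rat.den_mul_eq_num x
  have h2 := congrArg φ h1
  rw [map_mul, map_intCast, map_intCast] at h2
  have h3 : (((x.den : ℕ) : ℤ) : ZMod p) = 0 := by
    rw [Int.cast_natCast]
    exact (ZMod.natCast_eq_zero_iff _ _).2 h
  rw [h3, zero_mul] at h2
  have h4 : (p : ℤ) ∣ x.num := (ZMod.intCast_zmod_eq_zero_iff_dvd _ p).1 h2.symm
  have h5 : p ∣ x.num.natAbs := Int.natCast_dvd.1 h4
  have h6 : p ∣ 1 := by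
    have := Nat.dvd_gcd h5 h
    rwa [x.reduced.gcd_eq_one] at this
  exact hp.one_lt.ne' (Nat.dvd_one.1 h6)

theorem localR (hREDK : REDK) (hPADIC : PADIC) (hNZW : NZW)
    {r m d : ℕ} (hm : 2 ≤ m) (a b : Fin r → ℤ) (p : ℕ)
    (hp : p.Prime) (h2 : 2 < p) (hdisc : ∀ i, ¬ (p : ℤ) ∣ 4 * a i ^ 3 + 27 * b i ^ 2) :
    ∃ V : ((i : Fin r) → (crv ℚ (a i : ℚ) (b i : ℚ)).Point) → Idx r m d → ZMod p,
      (∀ N : ℕ, (∀ (i : Fin r) (Q : (crv ℚ (a i : ℚ) (b i : ℚ)).Point),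
        ∃ (n : ℤ) (P₀ : (crv ℚ (a i : ℚ) (b i : ℚ)).Point), N • Q = n • P₀ ∧
          (P₀ = 0 ∨ p ∣ (xc P₀).den)) →
        ∀ P P' R : (i : Fin r) → (crv ℚ (a i : ℚ) (b i : ℚ)).Point,
        P = P' + N • R → V P = V P') ∧
      (∀ P i, ∃ j : Idx r m d, j.1 = i ∧ V P j ≠ 0) ∧
      (∀ (c : Idx r m d → ℤ) P, PtProp (K := ℚ) a b c P →
        (fun i => ∑ j : Idx r m d, if j.1 = i then (c j : ZMod p) * V P j else 0) ∈
          rootSet p d) := by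
  classical
  have : Fact p.Prime := ⟨hp⟩
  obtain ⟨O, φ, hO⟩ := hPADIC p ℚ (algebraMap ℚ ℚ_[p])
  have h2p : (2 : ZMod p) ≠ 0 := by
    intro h
    have h3 : ((2 : ℕ) : ZMod p) = 0 := by exact_mod_cast h
    have := Nat.le_of_dvd (by norm_num) ((ZMod.natCast_eq_zero_iff 2 p).1 h3)
    omega
  have hd' : ∀ i, ((4 * a i ^ 3 + 27 * b i ^ 2 : ℤ) : ZMod p) ≠ 0 := by
    intro i h
    exact hdisc i ((ZMod.intCast_zmod_eq_zero_iff_dvd _ p).1 h)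
  choose red hred using fun i => hREDK ℚ (ZMod p) O φ hO h2p (a i) (b i) (hd' i)
  refine ⟨fun P j => ∏ l, monoW (j.2 l) (std (red l (P l))).1 (std (red l (P l))).2.1
    (std (red l (P l))).2.2, ?_, ?_, ?_⟩
  · intro N hN P P' R hP
    have h1 : ∀ i, red i (P i) = red i (P' i) := by
      intro i
      have hPi : P i = P' i + N • R i := by rw [hP]; rfl
      obtain ⟨n, P₀, hn, hP₀⟩ := hN i (R i)
      have hz : red i P₀ = 0 := by
        rcases hP₀ with h | h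
        · rw [h]; exact map_zero (red i)
        · match P₀, h with
          | .zero, _ => exact (hred i).1
          | .some x y hxy, h =>
            exact ((hred i).2 x y hxy).1 (notMem_of_dvd hp O φ h)
      rw [hPi, map_add, hn, map_zsmul, hz, smul_zero, add_zero]
    funext j
    apply Finset.prod_congr rfl
    intro l _
    rw [h1 l]
  · intro P i
    have h3 := fun l => hNZW (ZMod p) (a l : ZMod p) (b l : ZMod p) ((i.1 + 1) * m)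
      (by nlinarith) (red l (P l))
    choose s hs using h3
    refine ⟨⟨i, s⟩, rfl, ?_⟩
    exact Finset.prod_ne_zero_iff.2 fun l _ => hs l
  · intro c P hP
    obtain ⟨w, hw⟩ := hP (ZMod p) O φ hO (fun i => red i) hred
    refine ⟨w, Eq.trans ?_ hw⟩
    congr 1
    apply Finset.sum_congr rfl
    intro i _
    congr 1
    beta_reduce
    rw [Fintype.sum_sigma, Finset.sum_eq_single i]
    · simp only [if_true]
      rfl
    · intro i' _ hi'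
      apply Finset.sum_eq_zero
      intro s _
      rw [if_neg hi']
    · intro h; exact absurd (Finset.mem_univ i) h

/-- products of one curve of rank at most one and of curves of rank zero -/
def MAINR2 : Prop := ∀ (a₀ b₀ : ℤ), 4 * a₀ ^ 3 + 27 * b₀ ^ 2 ≠ 0 →
  (∀ Q R : (crv ℚ (a₀ : ℚ) (b₀ : ℚ)).Point, ∃ m n : ℤ, (m ≠ 0 ∨ n ≠ 0) ∧ m • Q + n • R = 0) →
  ∀ (r m d : ℕ), 1 ≤ r → 2 ≤ m → 2 ≤ d → ∀ (a b : Fin r → ℤ),
  (∀ i, 4 * a i ^ 3 + 27 * b i ^ 2 ≠ 0) →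
  (∀ i, (a i = a₀ ∧ b i = b₀) ∨
    ∀ Q : (crv ℚ (a i : ℚ) (b i : ℚ)).Point, ∃ n : ℤ, n ≠ 0 ∧ n • Q = 0) →
  ∀ ε : ℝ, 0 < ε → ∃ H₀ : ℕ, ∀ H : ℕ, H₀ ≤ H →
    (Nat.card {c : Idx r m d → ℤ // (∀ s, |c s| ≤ H) ∧ HasPointD ℚ a b c} : ℝ) ≤
      ε * (2 * (H : ℝ) + 1) ^ (Fintype.card (Idx r m d))

theorem aux1 {G : Type} [AddCommGroup G] (U T : ℕ) (n : ℤ) (Q P₀ : G) (h0 : P₀ = 0)
    (hn : T • Q = n • P₀) : (U * T) • Q = (0 : ℤ) • (0 : G) := by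
  rw [mul_smul, hn, h0, smul_zero, smul_zero, smul_zero]

theorem aux2 {G : Type} [AddCommGroup G] (n : ℤ) (Q R : G) (h0 : n • Q = 0) :
    n • Q + (0 : ℤ) • R = 0 := by
  rw [h0, zero_smul, add_zero]

theorem aux3 {G : Type} [AddCommGroup G] (T w : ℕ) (Q : G) (h0 : T • Q = 0) :
    (T * w) • Q = (0 : ℤ) • (0 : G) := by
  rw [mul_comm, mul_smul, h0, smul_zero, smul_zero]

/-- the primes and the exponent for one curve of rank at most one -/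
theorem oneCurve (hMW : MW) (hRK1 : RK1) (hSEQ : SEQ) (hEDS : EDS) (a b : ℤ)
    (hdisc : 4 * a ^ 3 + 27 * b ^ 2 ≠ 0)
    (hrk : ∀ Q R : (crv ℚ (a : ℚ) (b : ℚ)).Point, ∃ m n : ℤ, (m ≠ 0 ∨ n ≠ 0) ∧
      m • Q + n • R = 0) (D' : ℕ) (hD'0 : 0 < D') (U : ℕ) (hU : 0 < U) (C₀ : ℝ) :
    ∃ N : ℕ, 0 < N ∧ U ∣ N ∧ ∃ S : Finset ℕ, (∀ p ∈ S, p.Prime ∧ ¬ p ∣ D' ∧
      ∀ Q : (crv ℚ (a : ℚ) (b : ℚ)).Point,
        ∃ (n : ℤ) (P₀ : (crv ℚ (a : ℚ) (b : ℚ)).Point), N • Q = n • P₀ ∧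
          (P₀ = 0 ∨ p ∣ (xc P₀).den)) ∧
      C₀ * (1 + Real.log N) ≤ (S.card : ℝ) := by
  have hfg : AddGroup.FG (crv ℚ (a : ℚ) (b : ℚ)).Point := hMW a b hdisc
  obtain ⟨T, hT0, P₀, hP₀, hTP⟩ := hRK1 (crv ℚ (a : ℚ) (b : ℚ)).Point hrk
  have hT1 : (1 : ℝ) ≤ (U * T : ℕ) := by exact_mod_cast Nat.mul_pos hU hT0
  have hlT : 0 ≤ Real.log (U * T : ℕ) := Real.log_nonneg hT1
  rcases hP₀ with h0 | hinf
  · have hinf : {p : ℕ | p.Prime ∧ D' < p}.Infinite := by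
      intro hfin
      obtain ⟨M, hM⟩ := hfin.bddAbove
      obtain ⟨p, hp1, hp2⟩ := Nat.exists_infinite_primes (M + D' + 1)
      have : p ≤ M := hM ⟨hp2, by omega⟩
      omega
    obtain ⟨S, hS1, hS2⟩ := hinf.exists_subset_card_eq ⌈C₀ * (1 + Real.log (U * T : ℕ))⌉₊
    refine ⟨U * T, Nat.mul_pos hU hT0, Dvd.intro _ rfl, S, ?_, ?_⟩
    · intro p hpS
      obtain ⟨hp, hpD⟩ := hS1 hpS
      have hpD' : ¬ p ∣ D' := fun h => absurd (Nat.le_of_dvd hD'0 h) (by omega)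
      refine ⟨hp, hpD', ?_⟩
      intro Q
      obtain ⟨n, hn⟩ := hTP Q
      exact ⟨0, 0, aux1 U T n Q P₀ h0 hn, Or.inl rfl⟩
    · rw [hS2]
      exact Nat.le_ceil _
  · obtain ⟨h, C, K, hX⟩ := hSEQ a b hdisc P₀ hinf
    obtain ⟨N, hN, S, hS1, hS2⟩ := hEDS _ h C K hX D' hD'0 (|C₀| * (1 + Real.log (U * T : ℕ)))
    refine ⟨(U * T) * N, Nat.mul_pos (Nat.mul_pos hU hT0) hN, Dvd.intro _ (mul_assoc _ _ _).symm,
      S, ?_, ?_⟩
    · intro p hpS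
      obtain ⟨hp, hpD, hpx⟩ := hS1 p hpS
      refine ⟨hp, hpD, fun Q => ?_⟩
      obtain ⟨n, hn⟩ := hTP Q
      refine ⟨U * n, N • P₀, ?_, Or.inr hpx⟩
      calc (U * T * N) • Q = (N * U) • (T • Q) := by
            rw [← mul_smul]; congr 1; ring
        _ = (N * U) • (n • P₀) := by rw [hn]
        _ = ((U : ℤ) * n) • (N • P₀) := by
            rw [← natCast_zsmul, ← natCast_zsmul, ← mul_smul, ← mul_smul]
            congr 1
            push_cast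
            ring
    · refine le_trans ?_ hS2
      have hN1 : (1 : ℝ) ≤ N := by exact_mod_cast hN
      have hlN : 0 ≤ Real.log N := Real.log_nonneg hN1
      have e1 : Real.log ((U * T * N : ℕ) : ℝ) = Real.log (U * T : ℕ) + Real.log N := by
        rw [Nat.cast_mul (U * T) N, Real.log_mul (by linarith) (by linarith)]
      rw [e1]
      have h1 : 1 + (Real.log (U * T : ℕ) + Real.log N) ≤
          (1 + Real.log (U * T : ℕ)) * (1 + Real.log N) := by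
        nlinarith [mul_nonneg hlT hlN]
      calc C₀ * (1 + (Real.log (U * T : ℕ) + Real.log N)) ≤
            |C₀| * (1 + (Real.log (U * T : ℕ) + Real.log N)) := by
            apply mul_le_mul_of_nonneg_right (le_abs_self _)
            linarith
        _ ≤ |C₀| * ((1 + Real.log (U * T : ℕ)) * (1 + Real.log N)) :=
            mul_le_mul_of_nonneg_left h1 (abs_nonneg _)
        _ = _ := by ring

/-- a finitely generated torsion group has finite exponent -/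
theorem torsExp (hMW : MW) (hRK1 : RK1) (a b : ℤ) (hdisc : 4 * a ^ 3 + 27 * b ^ 2 ≠ 0) :
    ∃ T : ℕ, 0 < T ∧ ((∀ Q : (crv ℚ (a : ℚ) (b : ℚ)).Point, ∃ n : ℤ, n ≠ 0 ∧ n • Q = 0) →
      ∀ Q : (crv ℚ (a : ℚ) (b : ℚ)).Point, T • Q = 0) := by
  by_cases ht : ∀ Q : (crv ℚ (a : ℚ) (b : ℚ)).Point, ∃ n : ℤ, n ≠ 0 ∧ n • Q = 0
  · have hfg : AddGroup.FG (crv ℚ (a : ℚ) (b : ℚ)).Point := hMW a b hdisc
    obtain ⟨T, hT0, P₀, hP₀, hTP⟩ := hRK1 (crv ℚ (a : ℚ) (b : ℚ)).Point (by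
      intro Q R
      obtain ⟨n, hn, hQ⟩ := ht Q
      exact ⟨n, 0, Or.inl hn, aux2 n Q R hQ⟩)
    refine ⟨T, hT0, fun _ Q => ?_⟩
    obtain ⟨n, hn⟩ := hTP Q
    rcases hP₀ with h | h
    · rw [hn, h, smul_zero]
    · exfalso
      obtain ⟨k, hk, hk2⟩ := ht P₀
      apply h k.natAbs (Int.natAbs_pos.2 hk)
      rcases Int.natAbs_eq k with h3 | h3
      · rw [h3, natCast_zsmul] at hk2
        exact hk2
      · rw [h3, neg_smul, natCast_zsmul, neg_eq_zero] at hk2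
        exact hk2
  · exact ⟨1, one_pos, fun h => absurd h ht⟩

theorem mainR2 (hMW : MW) (hREDK : REDK) (hPADIC : PADIC) (hNZW : NZW) (hHPD : HPD)
    (hROOT : ROOT) (hABSP : ABSP) (hRK1 : RK1) (hSEQ : SEQ) (hEDS : EDS) : MAINR2 := by
  classical
  intro a₀ b₀ hdisc₀ hrk r m d hr hm hd a b hdisc hab ε hε
  have hfg : ∀ i, Module.Finite ℤ (crv ℚ (a i : ℚ) (b i : ℚ)).Point := fun i =>
    Module.Finite.iff_addGroup_fg.2 (hMW (a i) (b i) (hdisc i))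
  have hFG : AddGroup.FG ((i : Fin r) → (crv ℚ (a i : ℚ) (b i : ℚ)).Point) :=
    Module.Finite.iff_addGroup_fg.1 inferInstance
  set D' : ℕ := 2 * ∏ i, (4 * a i ^ 3 + 27 * b i ^ 2).natAbs with hD'
  have hD'0 : 0 < D' := by
    apply Nat.mul_pos two_pos
    apply Nat.pos_of_ne_zero
    rw [Finset.prod_ne_zero_iff]
    intro i _
    exact Int.natAbs_ne_zero.2 (hdisc i)
  have hgd : ∀ p : ℕ, p.Prime → ¬ p ∣ D' → 2 < p ∧
      ∀ i, ¬ (p : ℤ) ∣ 4 * a i ^ 3 + 27 * b i ^ 2 := by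
    intro p hp hpD
    refine ⟨?_, fun i h => hpD (((Int.natCast_dvd.1 h).trans
      (Finset.dvd_prod_of_mem (fun i => (4 * a i ^ 3 + 27 * b i ^ 2).natAbs)
        (Finset.mem_univ i))).mul_left _)⟩
    have h2 := hp.two_le
    rcases h2.lt_or_eq with h | h
    · exact h
    · exfalso
      apply hpD
      rw [← h]
      exact Dvd.intro _ rfl
  have hV : ∀ p : ℕ, ∃ V : ((i : Fin r) → (crv ℚ (a i : ℚ) (b i : ℚ)).Point) → Idx r m d → ZMod p,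
      p.Prime → ¬ p ∣ D' →
      (∀ N : ℕ, (∀ (i : Fin r) (Q : (crv ℚ (a i : ℚ) (b i : ℚ)).Point),
        ∃ (n : ℤ) (P₀ : (crv ℚ (a i : ℚ) (b i : ℚ)).Point), N • Q = n • P₀ ∧
          (P₀ = 0 ∨ p ∣ (xc P₀).den)) →
        ∀ P P' R : (i : Fin r) → (crv ℚ (a i : ℚ) (b i : ℚ)).Point,
        P = P' + N • R → V P = V P') ∧
      (∀ P i, ∃ j : Idx r m d, j.1 = i ∧ V P j ≠ 0) ∧
      (∀ (c : Idx r m d → ℤ) P, PtProp (K := ℚ) a b c P →
        (fun i => ∑ j : Idx r m d, if j.1 = i then (c j : ZMod p) * V P j else 0) ∈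
          rootSet p d) := by
    intro p
    by_cases hgood : p.Prime ∧ ¬ p ∣ D'
    · obtain ⟨hp, hpD⟩ := hgood
      obtain ⟨h2, hpd⟩ := hgd p hp hpD
      obtain ⟨V, hV⟩ := localR (r := r) (m := m) (d := d) hREDK hPADIC hNZW hm a b p hp h2 hpd
      exact ⟨V, fun _ _ => hV⟩
    · exact ⟨fun _ _ => 0, fun h1 h2 => absurd ⟨h1, h2⟩ hgood⟩
  choose V hV using hV
  have hη : (0 : ℝ) < 1 / (2 * (d : ℝ) ^ 2) := by
    have : (0 : ℝ) < d := by exact_mod_cast (by omega : 0 < d)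
    positivity
  have hη1 : 1 / (2 * (d : ℝ) ^ 2) ≤ 1 := by
    have h1 : (1 : ℝ) ≤ d := by exact_mod_cast (by omega : 1 ≤ d)
    rw [div_le_one (by positivity)]
    nlinarith
  choose T hT0 hT using fun i => torsExp hMW hRK1 (a i) (b i) (hdisc i)
  have hS : ∀ C₀ : ℝ, ∃ N : ℕ, 0 < N ∧ ∃ S : Finset ℕ, (∀ p ∈ S, p.Prime ∧ ¬ p ∣ D' ∧
      ∀ P P' R : (i : Fin r) → (crv ℚ (a i : ℚ) (b i : ℚ)).Point, P = P' + N • R →
        V p P = V p P') ∧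
      C₀ * (1 + Real.log N) ≤ (S.card : ℝ) := by
    intro C₀
    obtain ⟨N, hN, hUN, S, hS1, hS2⟩ := oneCurve hMW hRK1 hSEQ hEDS a₀ b₀ hdisc₀ hrk D' hD'0
      (∏ i, T i) (Finset.prod_pos fun i _ => hT0 i) C₀
    refine ⟨N, hN, S, ?_, hS2⟩
    intro p hpS
    obtain ⟨hp, hpD, h3⟩ := hS1 p hpS
    refine ⟨hp, hpD, (hV p hp hpD).1 N ?_⟩
    intro i Q
    rcases hab i with ⟨h4, h5⟩ | h4
    · revert Q
      rw [h4, h5]
      exact h3
    · obtain ⟨w, hw⟩ := (Finset.dvd_prod_of_mem T (Finset.mem_univ i)).trans hUN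
      rw [hw]
      exact ⟨0, 0, aux3 (T i) w Q (hT i h4 Q), Or.inl rfl⟩
  obtain ⟨H₀, hH₀⟩ := hABSP ((i : Fin r) → (crv ℚ (a i : ℚ) (b i : ℚ)).Point) (Idx r m d) d
    (fun j => j.1) (fun p => ¬ p ∣ D') V (fun p => rootSet p d) (1 / (2 * (d : ℝ) ^ 2)) (by omega)
    hη hη1 (by
      intro p hp hpD
      exact ⟨(hV p hp hpD).2.1, hROOT p d hp hd⟩) hS ε hε
  refine ⟨H₀, fun H hH => ?_⟩
  refine le_trans ?_ (hH₀ H hH)
  have h2K : (2 : ℚ) ≠ 0 := two_ne_zero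
  have hdK : ∀ i : Fin r, ((4 * a i ^ 3 + 27 * b i ^ 2 : ℤ) : ℚ) ≠ 0 := fun i =>
    Int.cast_ne_zero.2 (hdisc i)
  have h3 := card_box_le (ι := Idx r m d) H (fun c => HasPointD ℚ a b c)
    (fun c => ∃ P : (i : Fin r) → (crv ℚ (a i : ℚ) (b i : ℚ)).Point, ∀ p : ℕ, p.Prime →
      ¬ p ∣ D' →
      (fun i => ∑ j : Idx r m d, if j.1 = i then (c j : ZMod p) * V p P j else 0) ∈
        rootSet p d) (by
    intro c hc
    obtain ⟨P, hP⟩ := hHPD ℚ r m d a b c (by omega) h2K hdK hc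
    refine ⟨P, fun p hp hpD => ?_⟩
    exact (hV p hp hpD).2.2 c P hP)
  exact_mod_cast h3

end Pool.Agent.H925R3.RR
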