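import Mathlib
import Pool.Agent.H925R3.RR.Main
import Pool.Agent.H925R3.RR.AbsQ2
import Pool.Agent.H925R3.RR.Eds2

/-! Assembly with a saving of any power of the logarithm. -/

namespace Pool.Agent.H925R3.RR

open Finset Pool.Agent.H925R3.DC Pool.Agent.H925R3.DD

/-- products of one curve of rank at most one and of curves of rank zero -/
def MAINQ : Prop := ∀ (a₀ b₀ : ℤ), 4 * a₀ ^ 3 + 27 * b₀ ^ 2 ≠ 0 →
  (∀ Q R : (crv ℚ (a₀ : ℚ) (b₀ : ℚ)).Point, ∃ m n : ℤ, (m ≠ 0 ∨ n ≠ 0) ∧ m • Q + n • R = 0) →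
  ∀ (r m d : ℕ), 1 ≤ r → 2 ≤ m → 2 ≤ d → ∀ (a b : Fin r → ℤ),
  (∀ i, 4 * a i ^ 3 + 27 * b i ^ 2 ≠ 0) →
  (∀ i, (a i = a₀ ∧ b i = b₀) ∨
    ∀ Q : (crv ℚ (a i : ℚ) (b i : ℚ)).Point, ∃ n : ℤ, n ≠ 0 ∧ n • Q = 0) →
  ∀ A : ℝ, 0 < A → ∃ C : ℝ, ∀ H : ℕ, 2 ≤ H →
    (Nat.card {c : Idx r m d → ℤ // (∀ s, |c s| ≤ H) ∧ HasPointD ℚ a b c} : ℝ) ≤
      C * (Real.log H) ^ (-A) * (2 * (H : ℝ) + 1) ^ (Fintype.card (Idx r m d))

theorem manyPrimes (D' : ℕ) (hD' : 0 < D') (C₀ : ℝ) : ∃ I₀ : ℕ, ∀ I : ℕ, I₀ ≤ I →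
    ∃ S : Finset ℕ, (∀ p ∈ S, p.Prime ∧ ¬ p ∣ D' ∧ (p : ℝ) ≤ Real.exp (1 * 36 ^ I)) ∧
      C₀ * (1 + I) ≤ (S.card : ℝ) := by
  have hP : ∀ j : ℕ, ∃ p : ℕ, p.Prime ∧ D' * 2 ^ j < p ∧ p ≤ D' * 2 ^ (j + 1) := by
    intro j
    obtain ⟨p, h1, h2, h3⟩ := Nat.exists_prime_lt_and_le_two_mul (D' * 2 ^ j) (by positivity)
    exact ⟨p, h1, h2, h3.trans (le_of_eq (by ring))⟩
  choose P hP1 hP2 hP3 using hP
  have hmono : StrictMono P := strictMono_nat_of_lt_succ fun j => lt_of_le_of_lt (hP3 j) (hP2 (j + 1))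
  refine ⟨⌈(D' : ℝ) + |C₀| + 1⌉₊, fun I hI => ?_⟩
  have hI1 : (D' : ℝ) + |C₀| + 1 ≤ I := (Nat.le_ceil _).trans (by exact_mod_cast hI)
  have h6 : (1 : ℝ) + I ≤ 6 ^ I := by
    have := one_add_mul_le_pow (show (-2 : ℝ) ≤ 5 by norm_num) I
    norm_num at this
    have h0 : (0 : ℝ) ≤ I := Nat.cast_nonneg _
    linarith
  have h36 : (6 : ℝ) ^ I * 6 ^ I = 36 ^ I := by rw [← mul_pow]; norm_num
  set J : ℕ := ⌈C₀ * (1 + I)⌉₊ with hJ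
  have hIR : (0 : ℝ) ≤ I := Nat.cast_nonneg _
  have hJ1 : (J : ℝ) ≤ |C₀| * (1 + I) + 1 := by
    have h1 : C₀ * (1 + I) ≤ |C₀| * (1 + I) :=
      mul_le_mul_of_nonneg_right (le_abs_self _) (by positivity)
    have h2 : (J : ℝ) ≤ (⌈|C₀| * (1 + (I : ℝ))⌉₊ : ℝ) := Nat.cast_le.2 (Nat.ceil_mono h1)
    exact h2.trans (Nat.ceil_lt_add_one (by positivity)).le
  have hbig : (D' : ℝ) + J ≤ 36 ^ I := by
    have h1 : ((D' : ℝ) + |C₀| + 1) * (1 + I) ≤ 6 ^ I * 6 ^ I := by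
      apply mul_le_mul (by linarith) h6 (by positivity) (by positivity)
    rw [h36] at h1
    refine le_trans ?_ h1
    have : (0 : ℝ) ≤ D' := Nat.cast_nonneg _
    nlinarith
  refine ⟨(range J).image P, ?_, ?_⟩
  · intro p hp
    obtain ⟨j, hj, rfl⟩ := mem_image.1 hp
    have hjJ : j + 1 ≤ J := Finset.mem_range.1 hj
    refine ⟨hP1 j, ?_, ?_⟩
    · intro h
      have h1 := Nat.le_of_dvd hD' h
      have h2 := hP2 j
      have h3 : D' ≤ D' * 2 ^ j := Nat.le_mul_of_pos_right _ (by positivity)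
      omega
    · have h1 : (P j : ℝ) ≤ (D' : ℝ) * 2 ^ (j + 1) := by exact_mod_cast hP3 j
      refine h1.trans ?_
      have h2 : (D' : ℝ) ≤ Real.exp D' := by
        have := Real.add_one_le_exp (D' : ℝ)
        linarith
      have h3 : (2 : ℝ) ^ (j + 1) ≤ Real.exp J := by
        calc (2 : ℝ) ^ (j + 1) ≤ 2 ^ J := pow_le_pow_right₀ (by norm_num) hjJ
          _ ≤ Real.exp 1 ^ J := by
              apply pow_le_pow_left₀ (by norm_num)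
              have := Real.exp_one_gt_d9
              linarith
          _ = Real.exp J := by rw [← Real.exp_nat_mul, mul_one]
      calc (D' : ℝ) * 2 ^ (j + 1) ≤ Real.exp D' * Real.exp J := by gcongr
        _ = Real.exp (D' + J) := (Real.exp_add _ _).symm
        _ ≤ _ := Real.exp_le_exp.2 (by linarith)
  · rw [card_image_of_injective _ hmono.injective, card_range]
    exact Nat.le_ceil _

theorem den_le_exp {x : ℚ} {B : ℝ} (h : ht x ≤ B) : (x.den : ℝ) ≤ Real.exp B := by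
  have h1 : (x.den : ℝ) ≤ ((max (|x.num| : ℤ) (x.den : ℤ) : ℤ) : ℝ) := by
    exact_mod_cast le_max_right (|x.num| : ℤ) (x.den : ℤ)
  have h2 : (0 : ℝ) < x.den := by exact_mod_cast x.den_pos
  have h3 : Real.log x.den ≤ B := (Real.log_le_log h2 h1).trans h
  calc (x.den : ℝ) = Real.exp (Real.log x.den) := (Real.exp_log h2).symm
    _ ≤ _ := Real.exp_le_exp.2 h3

/-- the primes and the exponent for one curve of rank at most one -/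
theorem oneCurveQ (hMW : MW) (hRK1 : RK1) (hSEQ : SEQ) (hEDS : EDS2) (a b : ℤ)
    (hdisc : 4 * a ^ 3 + 27 * b ^ 2 ≠ 0)
    (hrk : ∀ Q R : (crv ℚ (a : ℚ) (b : ℚ)).Point, ∃ m n : ℤ, (m ≠ 0 ∨ n ≠ 0) ∧
      m • Q + n • R = 0) (D' : ℕ) (hD'0 : 0 < D') (U : ℕ) (hU : 0 < U) :
    ∃ (C₁ : ℝ) (U' : ℕ), 0 < U' ∧ U ∣ U' ∧ ∀ C₀ : ℝ, ∃ I₀ : ℕ, ∀ I : ℕ, I₀ ≤ I →
      ∃ S : Finset ℕ, (∀ p ∈ S, p.Prime ∧ ¬ p ∣ D' ∧ (p : ℝ) ≤ Real.exp (C₁ * 36 ^ I) ∧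
      ∀ Q : (crv ℚ (a : ℚ) (b : ℚ)).Point,
        ∃ (n : ℤ) (P₀ : (crv ℚ (a : ℚ) (b : ℚ)).Point), (U' * 6 ^ I) • Q = n • P₀ ∧
          (P₀ = 0 ∨ p ∣ (xc P₀).den)) ∧
      C₀ * (1 + I) ≤ (S.card : ℝ) := by
  have hfg : AddGroup.FG (crv ℚ (a : ℚ) (b : ℚ)).Point := hMW a b hdisc
  obtain ⟨T, hT0, P₀, hP₀, hTP⟩ := hRK1 (crv ℚ (a : ℚ) (b : ℚ)).Point hrk
  rcases hP₀ with h0 | hinf
  · refine ⟨1, U * T, Nat.mul_pos hU hT0, Dvd.intro _ rfl, fun C₀ => ?_⟩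
    obtain ⟨I₀, hI₀⟩ := manyPrimes D' hD'0 C₀
    refine ⟨I₀, fun I hI => ?_⟩
    obtain ⟨S, hS1, hS2⟩ := hI₀ I hI
    refine ⟨S, fun p hp => ⟨(hS1 p hp).1, (hS1 p hp).2.1, (hS1 p hp).2.2, fun Q => ?_⟩, hS2⟩
    obtain ⟨n, hn⟩ := hTP Q
    have h1 : T • Q = (0 : (crv ℚ (a : ℚ) (b : ℚ)).Point) := by
      rw [hn, h0]
      exact zsmul_zero n
    have h2 : (U * T * 6 ^ I) = T * (U * 6 ^ I) := by ring
    rw [h2]
    exact ⟨0, 0, aux3 T (U * 6 ^ I) Q h1, Or.inl rfl⟩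
  · obtain ⟨h, C, K, hX⟩ := hSEQ a b hdisc P₀ hinf
    refine ⟨h + |C|, U * T, Nat.mul_pos hU hT0, Dvd.intro _ rfl, fun C₀ => ?_⟩
    obtain ⟨I₀, hI₀⟩ := hEDS _ h C K hX D' hD'0 C₀
    refine ⟨I₀, fun I hI => ?_⟩
    obtain ⟨S, hS1, hS2⟩ := hI₀ I hI
    refine ⟨S, fun p hp => ?_, hS2⟩
    obtain ⟨hp1, hpD, hpx⟩ := hS1 p hp
    refine ⟨hp1, hpD, ?_, fun Q => ?_⟩
    · have h1 := (abs_le.1 (hX.height (6 ^ I) (Nat.one_le_pow _ _ (by norm_num)))).2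
      have h2 : ht (xc ((6 ^ I) • P₀)) ≤ (h + |C|) * 36 ^ I := by
        have h3 : (((6 ^ I : ℕ) : ℝ)) ^ 2 = 36 ^ I := by
          push_cast
          rw [← pow_mul, mul_comm I 2, pow_mul]
          norm_num
        rw [h3] at h1
        have h4 : (1 : ℝ) ≤ 36 ^ I := one_le_pow₀ (by norm_num)
        have h5 : C ≤ |C| * 36 ^ I := by
          have := le_abs_self C
          have := abs_nonneg C
          nlinarith
        linarith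
      have h6 : (p : ℝ) ≤ ((xc ((6 ^ I) • P₀)).den : ℝ) := by
        exact_mod_cast Nat.le_of_dvd (Rat.den_pos _) hpx
      exact h6.trans (den_le_exp h2)
    · obtain ⟨n, hn⟩ := hTP Q
      refine ⟨U * n, (6 ^ I) • P₀, ?_, Or.inr hpx⟩
      calc (U * T * 6 ^ I) • Q = (6 ^ I * U) • (T • Q) := by
            rw [← mul_smul]; congr 1; ring
        _ = (6 ^ I * U) • (n • P₀) := by rw [hn]
        _ = ((U : ℤ) * n) • ((6 ^ I) • P₀) := by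
            rw [← natCast_zsmul, ← natCast_zsmul, ← mul_smul, ← mul_smul]
            congr 1
            push_cast
            ring

theorem mainQ (hMW : MW) (hREDK : REDK) (hPADIC : PADIC) (hNZW : NZW) (hHPD : HPD)
    (hROOT : ROOT) (hABSQ : ABSQ) (hRK1 : RK1) (hSEQ : SEQ) (hEDS : EDS2) : MAINQ := by
  classical
  intro a₀ b₀ hdisc₀ hrk r m d hr hm hd a b hdisc hab A hA
  have hfg : ∀ i, Module.Finite ℤ (crv ℚ (a i : ℚ) (b i : ℚ)).Point := fun i =>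
    Module.Finite.iff_addGroup_fg.2 (hMW (a i) (b i) (hdisc i))
  have hFG : AddGroup.FG ((i : Fin r) → (crv ℚ (a i : ℚ) (b i : ℚ)).Point) :=
    Module.Finite.iff_addGroup_fg.1 inferInstance
  set D' : ℕ := 2 * ∏ i, (4 * a i ^ 3 + 27 * b i ^ 2).natAbs with hD'
  have hD'0 : 0 < D' := by
    apply Nat.mul_pos two_pos
    apply Nat.pos_of_ne_zero
    rw [Finset.prod_ne_zero_iff]
    intro i _
    exact Int.natAbs_ne_zero.2 (hdisc i)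
  have hgd : ∀ p : ℕ, p.Prime → ¬ p ∣ D' → 2 < p ∧
      ∀ i, ¬ (p : ℤ) ∣ 4 * a i ^ 3 + 27 * b i ^ 2 := by
    intro p hp hpD
    refine ⟨?_, fun i h => hpD (((Int.natCast_dvd.1 h).trans
      (Finset.dvd_prod_of_mem (fun i => (4 * a i ^ 3 + 27 * b i ^ 2).natAbs)
        (Finset.mem_univ i))).mul_left _)⟩
    have h2 := hp.two_le
    rcases h2.lt_or_eq with h | h
    · exact h
    · exfalso
      apply hpD
      rw [← h]
      exact Dvd.intro _ rfl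
  have hV : ∀ p : ℕ, ∃ V : ((i : Fin r) → (crv ℚ (a i : ℚ) (b i : ℚ)).Point) → Idx r m d → ZMod p,
      p.Prime → ¬ p ∣ D' →
      (∀ N : ℕ, (∀ (i : Fin r) (Q : (crv ℚ (a i : ℚ) (b i : ℚ)).Point),
        ∃ (n : ℤ) (P₀ : (crv ℚ (a i : ℚ) (b i : ℚ)).Point), N • Q = n • P₀ ∧
          (P₀ = 0 ∨ p ∣ (xc P₀).den)) →
        ∀ P P' R : (i : Fin r) → (crv ℚ (a i : ℚ) (b i : ℚ)).Point,
        P = P' + N • R → V P = V P') ∧
      (∀ P i, ∃ j : Idx r m d, j.1 = i ∧ V P j ≠ 0) ∧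
      (∀ (c : Idx r m d → ℤ) P, PtProp (K := ℚ) a b c P →
        (fun i => ∑ j : Idx r m d, if j.1 = i then (c j : ZMod p) * V P j else 0) ∈
          rootSet p d) := by
    intro p
    by_cases hgood : p.Prime ∧ ¬ p ∣ D'
    · obtain ⟨hp, hpD⟩ := hgood
      obtain ⟨h2, hpd⟩ := hgd p hp hpD
      obtain ⟨V, hV⟩ := localR (r := r) (m := m) (d := d) hREDK hPADIC hNZW hm a b p hp h2 hpd
      exact ⟨V, fun _ _ => hV⟩
    · exact ⟨fun _ _ => 0, fun h1 h2 => absurd ⟨h1, h2⟩ hgood⟩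
  choose V hV using hV
  have hη : (0 : ℝ) < 1 / (2 * (d : ℝ) ^ 2) := by
    have : (0 : ℝ) < d := by exact_mod_cast (by omega : 0 < d)
    positivity
  have hη1 : 1 / (2 * (d : ℝ) ^ 2) ≤ 1 := by
    have h1 : (1 : ℝ) ≤ d := by exact_mod_cast (by omega : 1 ≤ d)
    rw [div_le_one (by positivity)]
    nlinarith
  choose T hT0 hT using fun i => torsExp hMW hRK1 (a i) (b i) (hdisc i)
  obtain ⟨C₁, U', hU'0, hUU', hone⟩ := oneCurveQ hMW hRK1 hSEQ hEDS a₀ b₀ hdisc₀ hrk D' hD'0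
      (∏ i, T i) (Finset.prod_pos fun i _ => hT0 i)
  have hS : ∀ C₀ : ℝ, ∃ I₀ : ℕ, ∀ I : ℕ, I₀ ≤ I → ∃ S : Finset ℕ,
      (∀ p ∈ S, p.Prime ∧ ¬ p ∣ D' ∧ (p : ℝ) ≤ Real.exp (C₁ * 36 ^ I) ∧
      ∀ P P' R : (i : Fin r) → (crv ℚ (a i : ℚ) (b i : ℚ)).Point, P = P' + (U' * 6 ^ I) • R →
        V p P = V p P') ∧
      C₀ * (1 + I) ≤ (S.card : ℝ) := by
    intro C₀
    obtain ⟨I₀, hI₀⟩ := hone C₀
    refine ⟨I₀, fun I hI => ?_⟩
    obtain ⟨S, hS1, hS2⟩ := hI₀ I hI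
    refine ⟨S, ?_, hS2⟩
    intro p hpS
    obtain ⟨hp, hpD, hpX, h3⟩ := hS1 p hpS
    refine ⟨hp, hpD, hpX, (hV p hp hpD).1 (U' * 6 ^ I) ?_⟩
    intro i Q
    rcases hab i with ⟨h4, h5⟩ | h4
    · revert Q
      rw [h4, h5]
      exact h3
    · obtain ⟨w, hw⟩ := ((Finset.dvd_prod_of_mem T (Finset.mem_univ i)).trans hUU').mul_right
        (6 ^ I)
      rw [hw]
      exact ⟨0, 0, aux3 (T i) w Q (hT i h4 Q), Or.inl rfl⟩
  obtain ⟨C, hC⟩ := hABSQ ((i : Fin r) → (crv ℚ (a i : ℚ) (b i : ℚ)).Point) (Idx r m d) d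
    (fun j => j.1) (fun p => ¬ p ∣ D') V (fun p => rootSet p d) (1 / (2 * (d : ℝ) ^ 2)) (by omega)
    hη hη1 (by
      intro p hp hpD
      exact ⟨(hV p hp hpD).2.1, hROOT p d hp hd⟩) C₁ U' hU'0 hS A hA
  refine ⟨C, fun H hH => ?_⟩
  refine le_trans ?_ (hC H hH)
  have h2K : (2 : ℚ) ≠ 0 := two_ne_zero
  have hdK : ∀ i : Fin r, ((4 * a i ^ 3 + 27 * b i ^ 2 : ℤ) : ℚ) ≠ 0 := fun i =>
    Int.cast_ne_zero.2 (hdisc i)
  have h3 := card_box_le (ι := Idx r m d) H (fun c => HasPointD ℚ a b c)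
    (fun c => ∃ P : (i : Fin r) → (crv ℚ (a i : ℚ) (b i : ℚ)).Point, ∀ p : ℕ, p.Prime →
      ¬ p ∣ D' →
      (fun i => ∑ j : Idx r m d, if j.1 = i then (c j : ZMod p) * V p P j else 0) ∈
        rootSet p d) (by
    intro c hc
    obtain ⟨P, hP⟩ := hHPD ℚ r m d a b c (by omega) h2K hdK hc
    refine ⟨P, fun p hp hpD => ?_⟩
    exact (hV p hp hpD).2.2 c P hP)
  exact_mod_cast h3

end Pool.Agent.H925R3.RR
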