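import Mathlib
import Pool.Agent.H925R3.DD.Final
import Pool.Agent.H925R3.RR.MainQ
import Pool.Agent.H323R2.RR_ASUB
import Pool.Agent.H678RR.RR_F
import Pool.Agent.H503R2.RR_GAPS
import Pool.Agent.H73R2.RR_HCAN
import Pool.Agent.H769R2.RR_HDB
import Pool.Agent.Helper94.RR_HUP
import Pool.Agent.H92.RR_PDB
import Pool.Agent.H479R2.RR.RR_PRIM
import Pool.Agent.H702R2.RR_PSUB
import Pool.Agent.H19R2.RR.RR_PTR
import Pool.Agent.H769R2.RR_RK1
import Pool.Agent.H825R2.RR.RR_SEQ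

/-! Everything put together: covers of products of curves of rank at most one. -/

namespace Pool.Agent.H925R3.RR

theorem seqThm : SEQ := Pool.Agent.H825R2.RR.seq Pool.Agent.H678RR.fsp Pool.Agent.H678RR.fdb
  Pool.Agent.H678RR.feq Pool.Agent.Helper94.RRHUP.hup Pool.Agent.H769R2.rr_hdb
  Pool.Agent.H73R2.RRH.hcan Pool.Agent.H702R2.PSUB.psub Pool.Agent.H323R2.RRA.asub
  Pool.Agent.H92.RRPDB.pdb H19R2.RR.ptr

theorem eds2Thm : EDS2 := eds2 Pool.Agent.H503R2.RRG.gaps Pool.Agent.H479R2.RRPrim.prim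

theorem absQThm : ABSQ := abs_mainQ Pool.Agent.H133R3.DC.cls
  (Pool.Agent.H819R2.DDLINB.linb Pool.Agent.H582R4.MOM.mom)

theorem mainQThm : MAINQ := mainQ Pool.Agent.H64R2.DCMW.mw Pool.Agent.H602R2.DD_REDK.redk
  Pool.Agent.Helper485.DDPADIC.padic Pool.Agent.H903R2.DDNZW.nzw
  (Pool.Agent.H380R4.DD.hpd Pool.Agent.H226R3.DD.loc1) Pool.Agent.H386R6.DD_ROOT.root
  absQThm Pool.Agent.H769R2.rr_rk1 seqThm eds2Thm

end Pool.Agent.H925R3.RR
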